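import Pool.Agent.E8helper4.FV.PA2

/-!
# FV: assembly
-/

set_option autoImplicit false

open Complex MeasureTheory Metric Set Filter Topology ComplexConjugate
open Pool.Agent.Results.MP_83fd13_an.BranchSingularities (Solvable)

namespace Pool.Agent.E8helper4.FV

theorem aa (h0 : A0) (h1 : A1) (h3 : A3) (h4 : A4) : AA := by
  intro a ρ z ha h hL
  have h2 := pa2 h0 a ρ z ha h hL
  obtain ⟨d1, d2⟩ := h1 a ρ z ha h
  obtain ⟨s1, s2⟩ := h3 h0 a ρ z ha h hL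
  obtain ⟨z1, L1⟩ := h4 a (a ^ 2) (Th a ρ z) _ 4 ha d1 h2.1 (by
    intro α hα
    rw [s1 α hα]
    push_cast
    rfl)
  obtain ⟨z2, L2⟩ := h4 a a (La a ρ z) _ 2 ha d2 h2.2 (s2 z1)
  exact ⟨neg_eq_zero.1 L1, neg_eq_zero.1 L2⟩

theorem om_pos {φ : ℂ → ℂ} {r : ℝ} (hr : 1 < r) (hφ : DifferentiableOn ℂ φ (ball 0 r))
    (hinj : InjOn φ (ball 0 r)) (hk : ∀ t, 0 < kap φ t) (t : ℝ) : 0 < om φ t := by
  have h1 := hk t
  rw [kap] at h1
  by_contra h2
  have := div_nonpos_of_nonpos_of_nonneg (not_lt.1 h2)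
    (norm_nonneg (deriv φ (exp ((t : ℂ) * I))))
  linarith

theorem fin6 (h0 : A0) (h1 : A1) (h3 : A3) (h4 : A4) (b1 : B1) (b2 : B2) (b3 : B3) (c1 : C1)
    (c2 : C2) (c3 : C3) (c4 : C4) (c5 : C5) (c6 : C6) : Fin6 := by
  intro φ r lam hr hφ hinj hlam hS hk
  have hom := om_pos hr hφ hinj hk
  obtain ⟨th, T, hA⟩ := c2 φ r hr hφ hinj hom
  obtain ⟨hC, hLin⟩ := c3 φ r th T hr hφ hinj hom hA
  have hL := hLin (lam / 4) (c1 φ r lam hr hφ hinj hlam hS)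
  obtain ⟨i1, i2⟩ := aa h0 h1 h3 h4 (lam / 4) _ _ (by positivity) hC hL
  obtain ⟨d1, d2, hi⟩ := c6 _ _ hC
  obtain ⟨j1, j2, j3, j4⟩ := hi i1 i2
  obtain ⟨R1, hR1c, hR1, hsg⟩ := c4 φ r th T hr hφ hinj hom hA
  obtain ⟨hac, hdisc⟩ := c5 φ r th T hr hφ hinj hom hA
  have hper : ∀ s : ℝ, (I * exp (-(((s + 2 * Real.pi : ℝ) : ℂ) * I)) *
      zz φ T (s + 2 * Real.pi)).re = (I * exp (-((s : ℂ) * I)) * zz φ T s).re := by
    intro s
    rw [hC.perz]
    push_cast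
    rw [show -(((s : ℂ) + 2 * Real.pi) * I) = -(s * I) - 2 * Real.pi * I by ring, exp_sub,
      exp_two_pi_mul_I, div_one]
  rcases b3 b1 b2 _ _ _ R1 d1 d2 hR1 hR1c hper hC.pos hac j1 j2 j3 j4 with h | ⟨t, ht1, ht2, ht3⟩
  · obtain ⟨A, B, h⟩ := h
    exact Or.inl (hdisc A B h)
  · refine Or.inr ⟨fun i => T (t i), fun i j hij => hA.mT (ht1 hij), ?_, ?_⟩
    · have := hA.mT ht2
      rw [hA.pT] at this
      exact this
    · intro i
      have h5 := ht3 i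
      rcases hsg (t i) with h6 | ⟨h6, -⟩
      · rcases neg_one_pow_eq_or ℝ (i : ℕ) with h7 | h7
        · rw [h7, one_mul] at h5 ⊢
          exact (pos_iff_pos_of_mul_pos h6).1 h5
        · rw [h7, neg_one_mul] at h5 ⊢
          have h8 : 0 < -R1 (t i) * -(-deriv (kap φ) (T (t i))) := by
            rw [neg_mul_neg]
            exact h6
          exact (pos_iff_pos_of_mul_pos h8).1 h5
      · rw [h6, mul_zero] at h5
        exact absurd h5 (lt_irrefl _)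

end Pool.Agent.E8helper4.FV
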