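import Pool.Agent.E8helper4.FV.Geo

/-!
# FV, part A2: asymptotics at infinity
-/

set_option autoImplicit false

open Complex MeasureTheory Metric Set Filter Topology ComplexConjugate

namespace Pool.Agent.E8helper4.FV

variable {a : ℝ} {ρ : ℝ → ℝ} {z : ℝ → ℂ}

/-- `q = dX/dz` -/
noncomputable def q (s : ℝ) : ℂ := exp (-(2 * (s : ℂ) * I))

/-- `Q = q / (1 - c q)` -/
noncomputable def Q (c : ℂ) (s : ℝ) : ℂ := q s / (1 - c * q s)

theorem norm_q (s : ℝ) : ‖q s‖ = 1 := by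
  rw [q, norm_exp]
  simp

theorem q_der (s : ℝ) : HasDerivAt q (-(2 * I) * q s) s := by
  have h1 : HasDerivAt (fun s : ℝ => -(2 * (s : ℂ) * I)) (-(2 * 1 * I)) s :=
    (((ofRealCLM.hasDerivAt (x := s)).const_mul 2).mul_const I).neg
  have h2 := h1.cexp
  refine h2.congr_deriv ?_
  rw [q]
  ring

theorem one_sub_ne {c : ℂ} (hc : ‖c‖ ≤ 1 / 2) (s : ℝ) : 1 / 2 ≤ ‖1 - c * q s‖ := by
  have h1 : ‖(1 : ℂ)‖ - ‖c * q s‖ ≤ ‖1 - c * q s‖ := norm_sub_norm_le _ _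
  rw [norm_mul, norm_q, mul_one, norm_one] at h1
  linarith

theorem Q_der {c : ℂ} (hc : ‖c‖ ≤ 1 / 2) (s : ℝ) :
    HasDerivAt (Q c) (-(2 * I) * q s / (1 - c * q s) ^ 2) s := by
  have hne : 1 - c * q s ≠ 0 := by
    intro h
    have := one_sub_ne hc s
    rw [h, norm_zero] at this
    linarith
  have h0 : HasDerivAt (fun s => 1 - c * q s) (0 - c * (-(2 * I) * q s)) s :=
    (hasDerivAt_const s (1 : ℂ)).sub ((q_der s).const_mul c)
  have h1 : HasDerivAt (fun s => q s / (1 - c * q s))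
    ((-(2 * I) * q s * (1 - c * q s) - q s * (0 - c * (-(2 * I) * q s))) / (1 - c * q s) ^ 2) s :=
    (q_der s).div h0 hne
  refine h1.congr_deriv ?_
  congr 1
  ring

theorem Q_norm {c : ℂ} (hc : ‖c‖ ≤ 1 / 2) (s : ℝ) : ‖Q c s‖ ≤ 2 := by
  rw [Q, norm_div, norm_q, div_le_iff₀ (by linarith [one_sub_ne hc s])]
  linarith [one_sub_ne hc s]

theorem Q_der_norm {c : ℂ} (hc : ‖c‖ ≤ 1 / 2) (s : ℝ) :
    ‖-(2 * I) * q s / (1 - c * q s) ^ 2‖ ≤ 8 := by
  have h1 := one_sub_ne hc s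
  have h0 : (0 : ℝ) < ‖1 - c * q s‖ := by linarith
  rw [norm_div, norm_mul, norm_q, norm_neg, norm_mul, norm_I, norm_pow,
    div_le_iff₀ (by positivity)]
  have h2 : (1 / 2 : ℝ) ^ 2 ≤ ‖1 - c * q s‖ ^ 2 := pow_le_pow_left₀ (by norm_num) h1 2
  simp only [norm_ofNat]
  nlinarith

theorem Q_sub {c : ℂ} (hc : ‖c‖ ≤ 1 / 2) (s : ℝ) : ‖Q c s - q s‖ ≤ 2 * ‖c‖ := by
  have h1 := one_sub_ne hc s
  have hne : 1 - c * q s ≠ 0 := by
    intro h
    rw [h, norm_zero] at h1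
    linarith
  have e : Q c s * (1 - c * q s) = q s := div_mul_cancel₀ _ hne
  have h2 : Q c s - q s = c * q s * Q c s := by linear_combination e
  rw [h2, norm_mul, norm_mul, norm_q, mul_one, mul_comm]
  exact mul_le_mul_of_nonneg_right (Q_norm hc s) (norm_nonneg _)

/-- the primitive -/
theorem prim_der (h : Crv ρ z) (a : ℝ) {α : ℂ} (hα : α ≠ 0) (hc : ‖(a : ℂ) / α ^ 2‖ ≤ 1 / 2)
    (s : ℝ) : HasDerivAt (fun s => Q ((a : ℂ) / α ^ 2) s * E a z (-α) s)
      (-(2 * I) * q s / (1 - (a : ℂ) / α ^ 2 * q s) ^ 2 * E a z (-α) s -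
        α * (E a z (-α) s * dX ρ s)) s := by
  have hne : 1 - (a : ℂ) / α ^ 2 * q s ≠ 0 := by
    intro h
    have := one_sub_ne hc s
    rw [h, norm_zero] at this
    linarith
  have h1 := (Q_der hc s).mul (E_der h a (-α) s)
  refine h1.congr_deriv ?_
  have hdX : dX ρ s = q s * ((ρ s : ℂ) * exp ((s : ℂ) * I)) := dX_eq ρ s
  have e : Q ((a : ℂ) / α ^ 2) s * (1 - (a : ℂ) / α ^ 2 * q s) = q s := div_mul_cancel₀ _ hne
  rw [hdX]
  obtain ⟨w, hw⟩ : ∃ w : ℂ, w = (ρ s : ℂ) * exp ((s : ℂ) * I) := ⟨_, rfl⟩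
  rw [← hw]
  have e1 : -α * w - (a : ℂ) / -α * (q s * w) = -α * w * (1 - (a : ℂ) / α ^ 2 * q s) := by
    field_simp
    ring
  rw [e1]
  linear_combination (-α * w * E a z (-α) s) * e

/-- the formula for `E_α (Y_α - Y_α(R))` -/
theorem formula (h : Crv ρ z) (a : ℝ) {α : ℂ} (hα : α ≠ 0) (hc : ‖(a : ℂ) / α ^ 2‖ ≤ 1 / 2)
    (R s : ℝ) :
    α * (E a z α s * ∫ t in R..s, E a z (-α) t * dX ρ t) =
      -Q ((a : ℂ) / α ^ 2) s + Q ((a : ℂ) / α ^ 2) R * E a z (-α) R * E a z α s +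
      ∫ t in R..s, -(2 * I) * q t / (1 - (a : ℂ) / α ^ 2 * q t) ^ 2 *
        (E a z α s * E a z (-α) t) := by
  have hqc : Continuous q := continuous_iff_continuousAt.2 fun s => (q_der s).continuousAt
  have hEc := E_cont h a (-α)
  have hdc := dX_cont h
  have hne : ∀ t, (1 - (a : ℂ) / α ^ 2 * q t) ^ 2 ≠ 0 := by
    intro t h
    have h0 := pow_eq_zero_iff (two_ne_zero) |>.1 h
    have := one_sub_ne hc t
    rw [h0, norm_zero] at this
    linarith
  have hgc : Continuous fun t => -(2 * I) * q t / (1 - (a : ℂ) / α ^ 2 * q t) ^ 2 := by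
    apply Continuous.div _ _ hne
    · fun_prop
    · fun_prop
  have h1 : ∫ t in R..s, (-(2 * I) * q t / (1 - (a : ℂ) / α ^ 2 * q t) ^ 2 * E a z (-α) t -
      α * (E a z (-α) t * dX ρ t)) =
      Q ((a : ℂ) / α ^ 2) s * E a z (-α) s - Q ((a : ℂ) / α ^ 2) R * E a z (-α) R :=
    intervalIntegral.integral_eq_sub_of_hasDerivAt (fun t _ => prim_der h a hα hc t)
      (((hgc.mul hEc).sub (continuous_const.mul (hEc.mul hdc))).intervalIntegrable _ _)
  have c1 : Continuous fun t => -(2 * I) * q t / (1 - (a : ℂ) / α ^ 2 * q t) ^ 2 *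
      E a z (-α) t := hgc.mul hEc
  have c2 : Continuous fun t => α * (E a z (-α) t * dX ρ t) :=
    continuous_const.mul (hEc.mul hdc)
  rw [intervalIntegral.integral_sub (c1.intervalIntegrable _ _) (c2.intervalIntegrable _ _),
    intervalIntegral.integral_const_mul] at h1
  have hEE : E a z α s * E a z (-α) s = 1 := by
    rw [E, E, ← exp_add]
    rw [show α * z s - (a : ℂ) / α * conj (z s) + (-α * z s - (a : ℂ) / -α * conj (z s)) = 0 by
      field_simp; ring, exp_zero]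
  have h2 : ∫ t in R..s, -(2 * I) * q t / (1 - (a : ℂ) / α ^ 2 * q t) ^ 2 *
        (E a z α s * E a z (-α) t) =
      E a z α s * ∫ t in R..s, -(2 * I) * q t / (1 - (a : ℂ) / α ^ 2 * q t) ^ 2 *
        E a z (-α) t := by
    rw [← intervalIntegral.integral_const_mul]
    congr 1
    funext t
    ring
  rw [h2]
  linear_combination (-E a z α s) * h1 - Q ((a : ℂ) / α ^ 2) s * hEE

/-- the product of two waves -/
theorem EE_norm {Z : ℝ} (hZ : ∀ s, ‖z s‖ ≤ Z) (ha : 0 < a) {α : ℂ}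
    (hα : 1 ≤ ‖α‖) (s t : ℝ) :
    ‖E a z α s * E a z (-α) t‖ ≤ Real.exp ((α * (z s - z t)).re) * Real.exp (2 * a * Z) := by
  rw [E, E, ← exp_add, norm_exp, ← Real.exp_add]
  apply Real.exp_le_exp.2
  have hα0 : α ≠ 0 := by
    intro h0
    rw [h0, norm_zero] at hα
    linarith
  have e1 : α * z s - (a : ℂ) / α * conj (z s) + (-α * z t - (a : ℂ) / -α * conj (z t)) =
      α * (z s - z t) - (a : ℂ) / α * (conj (z s) - conj (z t)) := by
    field_simp
    ring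
  rw [e1, sub_re]
  have e2 : |((a : ℂ) / α * (conj (z s) - conj (z t))).re| ≤ 2 * a * Z := by
    refine (abs_re_le_norm _).trans ?_
    rw [norm_mul, norm_div, norm_real, Real.norm_of_nonneg ha.le]
    have e3 : ‖conj (z s) - conj (z t)‖ ≤ 2 * Z := by
      refine (norm_sub_le _ _).trans ?_
      rw [norm_conj, norm_conj]
      linarith [hZ s, hZ t]
    have e4 : a / ‖α‖ ≤ a := div_le_self ha.le hα
    calc a / ‖α‖ * ‖conj (z s) - conj (z t)‖ ≤ a * (2 * Z) :=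
          mul_le_mul e4 e3 (norm_nonneg _) ha.le
      _ = 2 * a * Z := by ring
  have e5 := neg_abs_le (((a : ℂ) / α * (conj (z s) - conj (z t))).re)
  linarith

/-- the bound of the remainder -/
theorem rem_bound (h : Crv ρ z) (ha : 0 < a) : ∃ K b : ℝ, 0 ≤ K ∧ 0 < b ∧ ∀ α : ℂ, 1 ≤ ‖α‖ →
    ‖(a : ℂ) / α ^ 2‖ ≤ 1 / 2 → ∀ s : ℝ, |s - sR α| ≤ Real.pi →
    ‖∫ t in (sR α)..s, -(2 * I) * q t / (1 - (a : ℂ) / α ^ 2 * q t) ^ 2 *
      (E a z α s * E a z (-α) t)‖ ≤ K * √(Real.pi / (b * ‖α‖)) := by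
  obtain ⟨Z, hZ0, hZ⟩ := bdd_z h
  obtain ⟨m, Mx, hm0, hM0, hm⟩ := bdd_ρ h
  refine ⟨8 * Real.exp (2 * a * Z), 2 * m / Real.pi ^ 2, by positivity, by positivity, ?_⟩
  intro α hα hc s hs
  have hb : 0 < 2 * m / Real.pi ^ 2 * ‖α‖ := by
    have : 0 < ‖α‖ := by linarith
    positivity
  have hint : Integrable fun t : ℝ => 8 * Real.exp (2 * a * Z) *
      Real.exp (-(2 * m / Real.pi ^ 2 * ‖α‖) * (t - s) ^ 2) :=
    ((integrable_exp_neg_mul_sq hb).comp_sub_right s).const_mul _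
  have h1 : ‖∫ t in (sR α)..s, -(2 * I) * q t / (1 - (a : ℂ) / α ^ 2 * q t) ^ 2 *
      (E a z α s * E a z (-α) t)‖ ≤ ∫ t in uIoc (sR α) s, 8 * Real.exp (2 * a * Z) *
      Real.exp (-(2 * m / Real.pi ^ 2 * ‖α‖) * (t - s) ^ 2) := by
    rw [intervalIntegral.norm_integral_eq_norm_integral_uIoc]
    refine norm_integral_le_of_norm_le hint.integrableOn ?_
    refine (ae_restrict_iff' measurableSet_uIoc).2 (Eventually.of_forall fun t ht => ?_)
    have ht' : t ∈ uIcc (sR α) s := uIoc_subset_uIcc ht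
    have h2 := EE_norm hZ ha hα s t
    have h3 := decay h hm0 (fun s => (hm s).1) α hs ht'
    rw [norm_mul]
    calc ‖-(2 * I) * q t / (1 - (a : ℂ) / α ^ 2 * q t) ^ 2‖ * ‖E a z α s * E a z (-α) t‖ ≤
          8 * (Real.exp ((α * (z s - z t)).re) * Real.exp (2 * a * Z)) :=
          mul_le_mul (Q_der_norm hc t) h2 (norm_nonneg _) (by norm_num)
      _ ≤ 8 * (Real.exp (-(‖α‖ * (2 * m / Real.pi ^ 2) * (s - t) ^ 2)) *
          Real.exp (2 * a * Z)) := by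
          have := Real.exp_le_exp.2 h3
          have h5 := (Real.exp_pos (2 * a * Z)).le
          nlinarith [mul_le_mul_of_nonneg_right this h5]
      _ = _ := by
          rw [show -(2 * m / Real.pi ^ 2 * ‖α‖) * (t - s) ^ 2 =
            -(‖α‖ * (2 * m / Real.pi ^ 2) * (s - t) ^ 2) by ring]
          ring
  refine h1.trans ?_
  have h2 : ∫ t in uIoc (sR α) s, 8 * Real.exp (2 * a * Z) *
      Real.exp (-(2 * m / Real.pi ^ 2 * ‖α‖) * (t - s) ^ 2) ≤ ∫ t, 8 * Real.exp (2 * a * Z) *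
      Real.exp (-(2 * m / Real.pi ^ 2 * ‖α‖) * (t - s) ^ 2) :=
    setIntegral_le_integral hint (Eventually.of_forall fun t => by positivity)
  refine h2.trans (le_of_eq ?_)
  rw [integral_const_mul]
  congr 1
  rw [integral_sub_right_eq_self (fun t : ℝ =>
    Real.exp (-(2 * m / Real.pi ^ 2 * ‖α‖) * t ^ 2)) s]
  exact integral_gaussian _

end Pool.Agent.E8helper4.FV
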