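import Pool.Agent.E8helper4.FV.Stm

/-!
# FV: basic facts on the plane waves along the curve
-/

set_option autoImplicit false

open Complex MeasureTheory Metric Set Filter Topology ComplexConjugate

namespace Pool.Agent.E8helper4.FV

variable {a : ℝ} {ρ : ℝ → ℝ} {z : ℝ → ℂ}

theorem Crv.hz (h : Crv ρ z) : Continuous z :=
  continuous_iff_continuousAt.2 fun s => (h.der s).continuousAt

theorem dX_conj (ρ : ℝ → ℝ) (s : ℝ) : conj ((ρ s : ℂ) * exp ((s : ℂ) * I)) = dX ρ s := by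
  rw [dX, map_mul, conj_ofReal, ← exp_conj, map_mul, conj_ofReal, conj_I, mul_neg]

theorem Crv.derc (h : Crv ρ z) (s : ℝ) : HasDerivAt (fun s => conj (z s)) (dX ρ s) s := by
  have h1 := (h.der s).star
  rw [← dX_conj]
  exact h1

theorem dX_eq (ρ : ℝ → ℝ) (s : ℝ) :
    dX ρ s = exp (-(2 * (s : ℂ) * I)) * ((ρ s : ℂ) * exp ((s : ℂ) * I)) := by
  rw [dX, mul_left_comm, ← exp_add]
  congr 2
  ring

theorem dX_cont (h : Crv ρ z) : Continuous (dX ρ) := by
  have h1 : Continuous fun s : ℝ => (ρ s : ℂ) := continuous_ofReal.comp h.cont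
  exact h1.mul (by fun_prop)

theorem dX_per (h : Crv ρ z) (s : ℝ) : dX ρ (s + 2 * Real.pi) = dX ρ s := by
  rw [dX, dX, h.per]
  congr 1
  push_cast
  rw [show -(((s : ℂ) + 2 * Real.pi) * I) = -(s * I) - 2 * Real.pi * I by ring, exp_sub,
    exp_two_pi_mul_I, div_one]

theorem norm_dX (h : Crv ρ z) (s : ℝ) : ‖dX ρ s‖ = ρ s := by
  rw [dX, norm_mul, norm_real, Real.norm_of_nonneg (h.pos s).le, norm_exp]
  simp

theorem E_cont (h : Crv ρ z) (a : ℝ) (α : ℂ) : Continuous (E a z α) := by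
  have h1 := h.hz
  have h2 : Continuous fun s => conj (z s) := continuous_conj.comp h1
  unfold E
  fun_prop

theorem E_per (h : Crv ρ z) (a : ℝ) (α : ℂ) (s : ℝ) : E a z α (s + 2 * Real.pi) = E a z α s := by
  rw [E, E, h.perz]

theorem E_der (h : Crv ρ z) (a : ℝ) (α : ℂ) (s : ℝ) : HasDerivAt (E a z α)
    (E a z α s * (α * ((ρ s : ℂ) * exp ((s : ℂ) * I)) - (a : ℂ) / α * dX ρ s)) s := by
  have h1 : HasDerivAt (fun s => α * z s - (a : ℂ) / α * conj (z s))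
      (α * ((ρ s : ℂ) * exp ((s : ℂ) * I)) - (a : ℂ) / α * dX ρ s) s :=
    ((h.der s).const_mul α).sub ((h.derc s).const_mul _)
  have h2 := h1.cexp
  exact h2

theorem bdd_z (h : Crv ρ z) : ∃ Z : ℝ, 0 ≤ Z ∧ ∀ s, ‖z s‖ ≤ Z := by
  have h1 : Function.Periodic z (2 * Real.pi) := h.perz
  obtain ⟨Z, hZ⟩ := (h1.isBounded_of_continuous (by positivity) h.hz).exists_norm_le
  exact ⟨Z, (norm_nonneg _).trans (hZ _ (mem_range_self 0)), fun s => hZ _ (mem_range_self s)⟩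

theorem bdd_ρ (h : Crv ρ z) : ∃ m Mx : ℝ, 0 < m ∧ 0 ≤ Mx ∧ ∀ s, m ≤ ρ s ∧ ρ s ≤ Mx := by
  have h1 : Function.Periodic ρ (2 * Real.pi) := h.per
  have hc : IsCompact (range ρ) := h1.compact_of_continuous (by positivity) h.cont
  obtain ⟨Mx, hM⟩ := (hc.isBounded).exists_norm_le
  obtain ⟨m, hm, hm2⟩ := hc.exists_isLeast ⟨ρ 0, mem_range_self 0⟩
  obtain ⟨s0, hs0⟩ := hm
  refine ⟨m, Mx, by rw [← hs0]; exact h.pos s0, (norm_nonneg _).trans (hM _ (mem_range_self 0)),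
    fun s => ⟨hm2 (mem_range_self s), ?_⟩⟩
  exact (le_abs_self _).trans (hM _ (mem_range_self s))

end Pool.Agent.E8helper4.FV
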