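import Pool.Agent.E8helper4.FV.Asm
import Pool.Agent.E8helper10.FV.A01
import Pool.Agent.E8helper44.FV.A3
import Pool.Agent.E8helper55.FV.A4C6
import Pool.Agent.E8helper77.FV.B13
import Pool.Agent.E8helper81.FV.B2
import Pool.Agent.E8helper38.FV.C1F
import Pool.Agent.E8helper85.FV.C2
import Pool.Agent.E8helper52.FV.C34
import Pool.Agent.E8helper69.FV.C5

set_option autoImplicit false

namespace Pool.Agent.E8helper4.FV

theorem t_fin6 : Fin6 :=
  fin6 Pool.Agent.E8helper10.FV.t_A0 Pool.Agent.E8helper10.FV.t_A1 Pool.Agent.E8helper44.FV.a3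
    Pool.Agent.E8helper55.FV.a4 Pool.Agent.E8helper77.FV.t_B1 Pool.Agent.E8helper81.FV.t_B2
    Pool.Agent.E8helper77.FV.t_B3 Pool.Agent.E8helper38.FV.t_C1 Pool.Agent.E8helper85.FV.t_C2
    Pool.Agent.E8helper52.FV.t_C3 Pool.Agent.E8helper52.FV.t_C4 Pool.Agent.E8helper69.FV.main
    Pool.Agent.E8helper55.FV.c6

end Pool.Agent.E8helper4.FV
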