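import Pool.Agent.E8helper4.FV.Bas

/-!
# FV: the real part of `α z` decreases quadratically from its maximum point
-/

set_option autoImplicit false

open Complex MeasureTheory Metric Set Filter Topology ComplexConjugate

namespace Pool.Agent.E8helper4.FV

variable {a : ℝ} {ρ : ℝ → ℝ} {z : ℝ → ℂ}

theorem cos_ineq {x y : ℝ} (hx : 0 ≤ x) (hxy : x ≤ y) (hy : y ≤ Real.pi) :
    2 / Real.pi ^ 2 * (y - x) ^ 2 ≤ Real.cos x - Real.cos y := by
  have hpi := Real.pi_pos
  have h1 : Real.cos x - Real.cos y =
      2 * (Real.sin ((x + y) / 2) * Real.sin ((y - x) / 2)) := by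
    rw [Real.cos_sub_cos, show (x - y) / 2 = -((y - x) / 2) by ring, Real.sin_neg]
    ring
  have h2 : (y - x) / Real.pi ≤ Real.sin ((y - x) / 2) := by
    have := Real.mul_le_sin (x := (y - x) / 2) (by linarith) (by linarith)
    calc (y - x) / Real.pi = 2 / Real.pi * ((y - x) / 2) := by field_simp
      _ ≤ _ := this
  have h3 : (y - x) / Real.pi ≤ Real.sin ((x + y) / 2) := by
    rcases le_total ((x + y) / 2) (Real.pi / 2) with h | h
    · have := Real.mul_le_sin (x := (x + y) / 2) (by linarith) h
      calc (y - x) / Real.pi ≤ (x + y) / Real.pi := by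
            apply div_le_div_of_nonneg_right _ hpi.le; linarith
        _ = 2 / Real.pi * ((x + y) / 2) := by field_simp
        _ ≤ _ := this
    · have := Real.mul_le_sin (x := Real.pi - (x + y) / 2) (by linarith) (by linarith)
      rw [Real.sin_pi_sub] at this
      refine le_trans ?_ this
      rw [show 2 / Real.pi * (Real.pi - (x + y) / 2) = (2 * Real.pi - (x + y)) / Real.pi by
        field_simp]
      apply div_le_div_of_nonneg_right _ hpi.le
      linarith
  have h4 : 0 ≤ (y - x) / Real.pi := div_nonneg (by linarith) hpi.le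
  rw [h1]
  calc 2 / Real.pi ^ 2 * (y - x) ^ 2 = 2 * ((y - x) / Real.pi * ((y - x) / Real.pi)) := by
        field_simp
    _ ≤ _ := by
        have := mul_le_mul h3 h2 h4 (h4.trans h3)
        linarith

/-- the point with maximal `Re (α z)` -/
noncomputable def sR (α : ℂ) : ℝ := Real.pi / 2 - arg α

theorem re_der (α : ℂ) (u : ℝ) (m : ℝ) :
    (α * ((m : ℂ) * exp ((u : ℂ) * I))).re = -(‖α‖ * m * Real.sin (u - sR α)) := by
  have h1 : α * ((m : ℂ) * exp ((u : ℂ) * I)) =
      ((‖α‖ * m : ℝ) : ℂ) * exp (((u + arg α : ℝ) : ℂ) * I) := by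
    conv_lhs => rw [← norm_mul_exp_arg_mul_I α]
    push_cast
    rw [add_mul, exp_add]
    ring
  rw [h1, re_ofReal_mul, exp_ofReal_mul_I_re, sR, show u - (Real.pi / 2 - arg α) =
    (u + arg α) - Real.pi / 2 by ring, Real.sin_sub_pi_div_two]
  ring

theorem re_hasDeriv (h : Crv ρ z) (α : ℂ) (u : ℝ) :
    HasDerivAt (fun u => (α * z u).re) (-(‖α‖ * ρ u * Real.sin (u - sR α))) u := by
  have h1 := (h.der u).const_mul α
  have h2 := (reCLM.hasFDerivAt (x := α * z u)).comp_hasDerivAt u h1
  have h3 : reCLM (α * ((ρ u : ℂ) * exp ((u : ℂ) * I))) =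
      -(‖α‖ * ρ u * Real.sin (u - sR α)) := re_der α u (ρ u)
  rw [← h3]
  exact h2

/-- quadratic decay -/
theorem decay (h : Crv ρ z) {m : ℝ} (hm0 : 0 < m) (hm : ∀ s, m ≤ ρ s) (α : ℂ) {s t : ℝ}
    (hs : |s - sR α| ≤ Real.pi) (ht : t ∈ uIcc (sR α) s) :
    (α * (z s - z t)).re ≤ -(‖α‖ * (2 * m / Real.pi ^ 2) * (s - t) ^ 2) := by
  obtain ⟨R, hR⟩ : ∃ R, R = sR α := ⟨_, rfl⟩
  have hk : ∀ u, HasDerivAt (fun u => (α * z u).re - ‖α‖ * m * Real.cos (u - sR α))
      (-(‖α‖ * (ρ u - m) * Real.sin (u - sR α))) u := by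
    intro u
    have h1 := re_hasDeriv h α u
    have h2 : HasDerivAt (fun u => ‖α‖ * m * Real.cos (u - sR α))
        (‖α‖ * m * (-Real.sin (u - sR α) * 1)) u :=
      (((hasDerivAt_id u).sub_const (sR α)).cos).const_mul _
    have h3 := h1.sub h2
    refine h3.congr_deriv ?_
    ring
  have hpi := Real.pi_pos
  have hα := norm_nonneg α
  have key : (α * z s).re - ‖α‖ * m * Real.cos (s - sR α) ≤
      (α * z t).re - ‖α‖ * m * Real.cos (t - sR α) ∧
      2 / Real.pi ^ 2 * (s - t) ^ 2 ≤ Real.cos (t - sR α) - Real.cos (s - sR α) := by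
    rw [← hR] at hs ht hk ⊢
    rcases le_total R s with hRs | hsR
    · rw [uIcc_of_le hRs] at ht
      rw [abs_of_nonneg (by linarith)] at hs
      refine ⟨?_, ?_⟩
      · have hanti : AntitoneOn (fun u => (α * z u).re - ‖α‖ * m * Real.cos (u - R))
            (Icc R (R + Real.pi)) := by
          apply antitoneOn_of_deriv_nonpos (convex_Icc _ _)
          · exact fun u _ => (hk u).continuousAt.continuousWithinAt
          · exact fun u _ => (hk u).differentiableAt.differentiableWithinAt
          · intro u hu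
            rw [interior_Icc] at hu
            rw [(hk u).deriv]
            have hs0 : 0 ≤ Real.sin (u - R) :=
              Real.sin_nonneg_of_nonneg_of_le_pi (by linarith [hu.1]) (by linarith [hu.2])
            have := mul_nonneg (mul_nonneg hα (sub_nonneg.2 (hm u))) hs0
            linarith
        exact hanti ⟨ht.1, by linarith [ht.2]⟩ ⟨hRs, by linarith⟩ ht.2
      · have := cos_ineq (x := t - R) (y := s - R) (by linarith [ht.1]) (by linarith [ht.2])
          (by linarith)
        rw [show s - R - (t - R) = s - t by ring] at this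
        exact this
    · rw [uIcc_of_ge hsR] at ht
      rw [abs_of_nonpos (by linarith)] at hs
      refine ⟨?_, ?_⟩
      · have hmono : MonotoneOn (fun u => (α * z u).re - ‖α‖ * m * Real.cos (u - R))
            (Icc (R - Real.pi) R) := by
          apply monotoneOn_of_deriv_nonneg (convex_Icc _ _)
          · exact fun u _ => (hk u).continuousAt.continuousWithinAt
          · exact fun u _ => (hk u).differentiableAt.differentiableWithinAt
          · intro u hu
            rw [interior_Icc] at hu
            rw [(hk u).deriv]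
            have hs0 : Real.sin (u - R) ≤ 0 :=
              Real.sin_nonpos_of_nonpos_of_neg_pi_le (by linarith [hu.2]) (by linarith [hu.1])
            have := mul_nonneg (mul_nonneg hα (sub_nonneg.2 (hm u))) (neg_nonneg.2 hs0)
            linarith
        exact hmono ⟨by linarith, hsR⟩ ⟨by linarith [ht.1], ht.2⟩ ht.1
      · have := cos_ineq (x := R - t) (y := R - s) (by linarith [ht.2]) (by linarith [ht.1])
          (by linarith)
        rw [show R - s - (R - t) = -(s - t) by ring, neg_sq, show R - t = -(t - R) by ring,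
          Real.cos_neg, show R - s = -(s - R) by ring, Real.cos_neg] at this
        exact this
  obtain ⟨k1, k2⟩ := key
  rw [mul_sub, sub_re]
  have h5 : ‖α‖ * m * (2 / Real.pi ^ 2 * (s - t) ^ 2) ≤
      ‖α‖ * m * (Real.cos (t - sR α) - Real.cos (s - sR α)) :=
    mul_le_mul_of_nonneg_left k2 (mul_nonneg hα hm0.le)
  have h6 : ‖α‖ * (2 * m / Real.pi ^ 2) * (s - t) ^ 2 =
      ‖α‖ * m * (2 / Real.pi ^ 2 * (s - t) ^ 2) := by ring
  rw [h6]
  linarith

end Pool.Agent.E8helper4.FV
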