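import Pool.Agent.E8helper4.FV.Asy

/-!
# FV, part A2: asymptotics at infinity
-/

set_option autoImplicit false

open Complex MeasureTheory Metric Set Filter Topology ComplexConjugate

namespace Pool.Agent.E8helper4.FV

variable {a : ℝ} {ρ : ℝ → ℝ} {z : ℝ → ℂ}

theorem per_shift {f : ℝ → ℂ} (hf : ∀ s, f (s + 2 * Real.pi) = f s) (R : ℝ) :
    ∫ s in (0 : ℝ)..(2 * Real.pi), f s = ∫ s in (R - Real.pi)..(R + Real.pi), f s := by
  have h1 : Function.Periodic f (2 * Real.pi) := hf
  have h2 := h1.intervalIntegral_add_eq 0 (R - Real.pi)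
  rw [zero_add, show R - Real.pi + 2 * Real.pi = R + Real.pi by ring] at h2
  exact h2

theorem Y_cont (h : Crv ρ z) (a : ℝ) (α : ℂ) : Continuous (Y a ρ z α) := by
  have h1 : Continuous fun t => E a z (-α) t * dX ρ t := (E_cont h a (-α)).mul (dX_cont h)
  exact intervalIntegral.continuous_primitive (fun _ _ => h1.intervalIntegrable _ _) 0

theorem Y_sub (h : Crv ρ z) (a : ℝ) (α : ℂ) (R s : ℝ) :
    Y a ρ z α s = Y a ρ z α R + ∫ t in R..s, E a z (-α) t * dX ρ t := by
  have h1 : Continuous fun t => E a z (-α) t * dX ρ t := (E_cont h a (-α)).mul (dX_cont h)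
  exact (intervalIntegral.integral_add_adjacent_intervals (h1.intervalIntegrable _ _)
    (h1.intervalIntegrable _ _)).symm

theorem Y_per (h : Crv ρ z)
    (hEX : ∀ α : ℂ, α ≠ 0 → ∫ s in (0 : ℝ)..(2 * Real.pi), E a z α s * dX ρ s = 0)
    {α : ℂ} (hα : α ≠ 0) (s : ℝ) : Y a ρ z α (s + 2 * Real.pi) = Y a ρ z α s := by
  rw [Y_sub h a α s (s + 2 * Real.pi)]
  have h1 : Function.Periodic (fun t => E a z (-α) t * dX ρ t) (2 * Real.pi) := by
    intro t
    simp only [E_per h, dX_per h]
  have h2 := h1.intervalIntegral_add_eq 0 s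
  rw [zero_add, hEX (-α) (neg_ne_zero.2 hα)] at h2
  rw [← h2, add_zero]

theorem asy (h : Crv ρ z) (ha : 0 < a) (W : ℂ → ℝ → ℂ) (W0 : ℝ → ℂ) (C : ℝ) (hC : 0 ≤ C)
    (hWc : ∀ α, Continuous (W α)) (hWp : ∀ α s, W α (s + 2 * Real.pi) = W α s)
    (hW0 : Continuous W0) (hW0p : ∀ s, W0 (s + 2 * Real.pi) = W0 s)
    (hWb : ∀ α : ℂ, 1 ≤ ‖α‖ → ∀ s, ‖W α s‖ ≤ C)
    (hWs : ∀ α : ℂ, 1 ≤ ‖α‖ → ∀ s, ‖W α s - W0 s‖ ≤ C / ‖α‖)
    (hEX : ∀ α : ℂ, α ≠ 0 → ∫ s in (0 : ℝ)..(2 * Real.pi), E a z α s * dX ρ s = 0)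
    (hWL : ∀ α : ℂ, α ≠ 0 → ∫ s in (0 : ℝ)..(2 * Real.pi), W α s * E a z α s * dX ρ s = 0) :
    Tendsto (fun α : ℂ => α * ∫ s in (0 : ℝ)..(2 * Real.pi),
      W α s * E a z α s * Y a ρ z α s * dX ρ s) (Bornology.cobounded ℂ)
      (𝓝 (-∫ s in (0 : ℝ)..(2 * Real.pi), W0 s * exp (-(2 * (s : ℂ) * I)) * dX ρ s)) := by
  obtain ⟨K, b, hK, hb, hrem⟩ := rem_bound h ha
  obtain ⟨m, Mx, hm0, hM0, hm⟩ := bdd_ρ h
  have hpi := Real.pi_pos
  have hqc : Continuous q := continuous_iff_continuousAt.2 fun s => (q_der s).continuousAt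
  have hqp : ∀ s, q (s + 2 * Real.pi) = q s := by
    intro s
    rw [q, q]
    push_cast
    rw [show -(2 * ((s : ℂ) + 2 * Real.pi) * I) = -(2 * s * I) - 2 * Real.pi * I -
      2 * Real.pi * I by ring, exp_sub, exp_sub, exp_two_pi_mul_I, div_one, div_one]
  have hdc := dX_cont h
  have key : ∀ α : ℂ, 1 + 2 * a ≤ ‖α‖ →
      ‖α * (∫ s in (0 : ℝ)..(2 * Real.pi), W α s * E a z α s * Y a ρ z α s * dX ρ s) -
        -∫ s in (0 : ℝ)..(2 * Real.pi), W0 s * exp (-(2 * (s : ℂ) * I)) * dX ρ s‖ ≤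
      ((C + 2 * C * a) * Mx * ‖α‖⁻¹ + C * Mx * K * √(Real.pi / (b * ‖α‖))) *
        |Real.pi + Real.pi| := by
    intro α hα
    have hα1 : 1 ≤ ‖α‖ := by linarith
    have hα0 : α ≠ 0 := by
      intro h0
      rw [h0, norm_zero] at hα1
      linarith
    have hαp : 0 < ‖α‖ := by linarith
    obtain ⟨c, hcdef⟩ : ∃ c : ℂ, c = (a : ℂ) / α ^ 2 := ⟨_, rfl⟩
    have hcn : ‖c‖ = a / ‖α‖ ^ 2 := by
      rw [hcdef, norm_div, norm_pow, norm_real, Real.norm_of_nonneg ha.le]
    have hc : ‖c‖ ≤ 1 / 2 := by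
      rw [hcn, div_le_iff₀ (by positivity)]
      nlinarith
    have hca : ‖c‖ ≤ a * ‖α‖⁻¹ := by
      rw [hcn, div_eq_mul_inv]
      apply mul_le_mul_of_nonneg_left _ ha.le
      apply inv_anti₀ hαp
      nlinarith
    obtain ⟨R, hR⟩ : ∃ R, R = sR α := ⟨_, rfl⟩
    have hEc := E_cont h a α
    have hYc := Y_cont h a α
    have hQc : Continuous (Q c) := continuous_iff_continuousAt.2 fun s =>
      (Q_der hc s).continuousAt
    have e1 := per_shift (f := fun s => W α s * E a z α s * Y a ρ z α s * dX ρ s)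
      (fun s => by simp only [hWp, E_per h, Y_per h hEX hα0, dX_per h]) R
    have e2 := per_shift (f := fun s => W0 s * exp (-(2 * (s : ℂ) * I)) * dX ρ s)
      (fun s => by
        have := hqp s
        rw [q, q] at this
        simp only [hW0p, dX_per h, this]) R
    have e3 := per_shift (f := fun s => W α s * E a z α s * dX ρ s)
      (fun s => by simp only [hWp, E_per h, dX_per h]) R
    rw [hWL α hα0] at e3
    rw [e1, e2]
    obtain ⟨D, hD⟩ : ∃ D : ℝ → ℂ, D = fun s => Y a ρ z α s - Y a ρ z α R := ⟨_, rfl⟩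
    have hDc : Continuous D := by rw [hD]; fun_prop
    obtain ⟨Re, hRe⟩ : ∃ Re : ℝ → ℂ, Re = fun s => α * (E a z α s * D s) + Q c s -
      Q c R * E a z (-α) R * E a z α s := ⟨_, rfl⟩
    have hRec : Continuous Re := by rw [hRe]; fun_prop
    have hReb : ∀ s, |s - R| ≤ Real.pi → ‖Re s‖ ≤ K * √(Real.pi / (b * ‖α‖)) := by
      intro s hs
      rw [hR] at hs
      have hf := formula h a hα0 (by rw [← hcdef]; exact hc) R s
      have hD2 : D s = ∫ t in R..s, E a z (-α) t * dX ρ t := by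
        rw [hD]
        change Y a ρ z α s - Y a ρ z α R = _
        rw [Y_sub h a α R s]
        ring
      rw [← hD2] at hf
      have h4 : Re s = ∫ t in R..s, -(2 * I) * q t / (1 - (a : ℂ) / α ^ 2 * q t) ^ 2 *
        (E a z α s * E a z (-α) t) := by
        rw [hRe]
        change α * (E a z α s * D s) + Q c s - Q c R * E a z (-α) R * E a z α s = _
        rw [hf, hcdef]
        ring
      rw [h4, hR]
      exact hrem α hα1 (by rw [← hcdef]; exact hc) s hs
    have e4 : α * (∫ s in (R - Real.pi)..(R + Real.pi),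
        W α s * E a z α s * Y a ρ z α s * dX ρ s) =
        ∫ s in (R - Real.pi)..(R + Real.pi), W α s * (-Q c s + Re s) * dX ρ s := by
      have e5 : ∀ s, W α s * (-Q c s + Re s) * dX ρ s =
          α * (W α s * E a z α s * Y a ρ z α s * dX ρ s) -
          (α * Y a ρ z α R + Q c R * E a z (-α) R) * (W α s * E a z α s * dX ρ s) := by
        intro s
        rw [hRe, hD]
        ring
      simp_rw [e5]
      have c1 : Continuous fun s => α * (W α s * E a z α s * Y a ρ z α s * dX ρ s) := by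
        have := hWc α
        fun_prop
      have c2 : Continuous fun s => (α * Y a ρ z α R + Q c R * E a z (-α) R) *
          (W α s * E a z α s * dX ρ s) := by
        have := hWc α
        fun_prop
      rw [intervalIntegral.integral_sub (c1.intervalIntegrable _ _)
        (c2.intervalIntegrable _ _), intervalIntegral.integral_const_mul,
        intervalIntegral.integral_const_mul, ← e3, mul_zero, sub_zero]
    rw [e4, sub_neg_eq_add]
    have c3 : Continuous fun s => W α s * (-Q c s + Re s) * dX ρ s := by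
      have := hWc α
      fun_prop
    have c4 : Continuous fun s : ℝ => W0 s * exp (-(2 * (s : ℂ) * I)) * dX ρ s := by fun_prop
    rw [← intervalIntegral.integral_add (c3.intervalIntegrable _ _)
      (c4.intervalIntegrable _ _)]
    have e6 : ∀ s ∈ uIoc (R - Real.pi) (R + Real.pi),
        ‖W α s * (-Q c s + Re s) * dX ρ s + W0 s * exp (-(2 * (s : ℂ) * I)) * dX ρ s‖ ≤
        (C + 2 * C * a) * Mx * ‖α‖⁻¹ + C * Mx * K * √(Real.pi / (b * ‖α‖)) := by
      intro s hs
      rw [uIoc_of_le (by linarith)] at hs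
      have hsR : |s - R| ≤ Real.pi := by
        rw [abs_le]
        constructor <;> linarith [hs.1, hs.2]
      have e7 : W α s * (-Q c s + Re s) * dX ρ s + W0 s * exp (-(2 * (s : ℂ) * I)) * dX ρ s =
          ((-(W α s - W0 s) * q s - W α s * (Q c s - q s)) + W α s * Re s) * dX ρ s := by
        change _ + W0 s * q s * dX ρ s = _
        ring
      rw [e7, norm_mul, norm_dX h]
      have e8 : ‖-(W α s - W0 s) * q s‖ ≤ C * ‖α‖⁻¹ := by
        rw [norm_mul, norm_neg, norm_q, mul_one]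
        exact hWs α hα1 s
      have e9 : ‖W α s * (Q c s - q s)‖ ≤ 2 * C * a * ‖α‖⁻¹ := by
        rw [norm_mul]
        calc ‖W α s‖ * ‖Q c s - q s‖ ≤ C * (2 * ‖c‖) :=
              mul_le_mul (hWb α hα1 s) (Q_sub hc s) (norm_nonneg _) hC
          _ ≤ C * (2 * (a * ‖α‖⁻¹)) := by
              apply mul_le_mul_of_nonneg_left _ hC
              linarith
          _ = _ := by ring
      have e10 : ‖W α s * Re s‖ ≤ C * (K * √(Real.pi / (b * ‖α‖))) := by
        rw [norm_mul]
        exact mul_le_mul (hWb α hα1 s) (hReb s hsR) (norm_nonneg _) hC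
      have e11 : ‖(-(W α s - W0 s) * q s - W α s * (Q c s - q s)) + W α s * Re s‖ ≤
          (C + 2 * C * a) * ‖α‖⁻¹ + C * (K * √(Real.pi / (b * ‖α‖))) := by
        refine (norm_add_le _ _).trans ?_
        have := norm_sub_le (-(W α s - W0 s) * q s) (W α s * (Q c s - q s))
        linarith
      have hρ := (hm s).2
      have hρ0 := (h.pos s).le
      calc _ ≤ ((C + 2 * C * a) * ‖α‖⁻¹ + C * (K * √(Real.pi / (b * ‖α‖)))) * Mx :=
            mul_le_mul e11 hρ hρ0 (by positivity)
        _ = _ := by ring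
    have e12 := intervalIntegral.norm_integral_le_of_norm_le_const e6
    rw [show R + Real.pi - (R - Real.pi) = Real.pi + Real.pi by ring] at e12
    exact e12
  rw [tendsto_iff_norm_sub_tendsto_zero]
  have hn : Tendsto (fun α : ℂ => ‖α‖) (Bornology.cobounded ℂ) atTop :=
    tendsto_norm_cobounded_atTop
  have l1 : Tendsto (fun α : ℂ => ‖α‖⁻¹) (Bornology.cobounded ℂ) (𝓝 0) :=
    tendsto_inv_atTop_zero.comp hn
  have l2 : Tendsto (fun α : ℂ => √(Real.pi / (b * ‖α‖))) (Bornology.cobounded ℂ) (𝓝 0) := by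
    have : Tendsto (fun α : ℂ => Real.pi / b * ‖α‖⁻¹) (Bornology.cobounded ℂ) (𝓝 0) := by
      simpa using l1.const_mul (Real.pi / b)
    have h2 := (Real.continuous_sqrt.tendsto 0).comp this
    rw [Real.sqrt_zero] at h2
    refine h2.congr fun α => ?_
    simp only [Function.comp]
    congr 1
    rw [div_mul_eq_div_div, div_eq_mul_inv (Real.pi / b)]
  have l3 : Tendsto (fun α : ℂ => ((C + 2 * C * a) * Mx * ‖α‖⁻¹ +
      C * Mx * K * √(Real.pi / (b * ‖α‖))) * |Real.pi + Real.pi|) (Bornology.cobounded ℂ)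
      (𝓝 0) := by
    simpa using ((l1.const_mul ((C + 2 * C * a) * Mx)).add
      (l2.const_mul (C * Mx * K))).mul_const (|Real.pi + Real.pi|)
  refine squeeze_zero' (Eventually.of_forall fun _ => norm_nonneg _) ?_ l3
  filter_upwards [hn.eventually_ge_atTop (1 + 2 * a)] with α hα using key α hα

theorem pa2 : A2 := by
  intro hA0 a ρ z ha h hL
  have hA := hA0 a ρ z ha h hL
  obtain ⟨Z, hZ0, hZ⟩ := bdd_z h
  have hzc := h.hz
  constructor
  · have h1 := asy h ha (fun _ _ => 1) (fun _ => 1) 1 zero_le_one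
      (fun _ => continuous_const) (fun _ _ => rfl) continuous_const (fun _ => rfl)
      (fun α _ s => by simp) (fun α _ s => by simp) (fun α hα => (hA α hα).1)
      (fun α hα => by simpa using (hA α hα).1)
    simpa [Th] using h1
  · have hzcc : Continuous fun s => conj (z s) := continuous_conj.comp hzc
    have h1 := asy h ha (fun α s => M a z α s) z ((1 + a) * Z) (by positivity)
      (fun α => by unfold M; fun_prop) (fun α s => by rw [M, M, h.perz]) hzc h.perz
      (fun α hα s => by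
        rw [M]
        refine (norm_add_le _ _).trans ?_
        rw [norm_mul, norm_conj, norm_div, norm_pow, norm_real, Real.norm_of_nonneg ha.le]
        have e1 : a / ‖α‖ ^ 2 ≤ a := div_le_self ha.le (one_le_pow₀ hα)
        have e2 := mul_le_mul e1 (hZ s) (norm_nonneg _) ha.le
        linarith [hZ s])
      (fun α hα s => by
        rw [M, add_sub_cancel_left, norm_mul, norm_conj, norm_div, norm_pow, norm_real,
          Real.norm_of_nonneg ha.le]
        have hαp : 0 < ‖α‖ := by linarith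
        have e1 : a / ‖α‖ ^ 2 ≤ a / ‖α‖ := by
          apply div_le_div_of_nonneg_left ha.le hαp
          nlinarith
        calc a / ‖α‖ ^ 2 * ‖z s‖ ≤ a / ‖α‖ * Z :=
              mul_le_mul e1 (hZ s) (norm_nonneg _) (by positivity)
          _ ≤ (1 + a) * Z / ‖α‖ := by
              rw [div_mul_eq_mul_div]
              apply div_le_div_of_nonneg_right _ hαp.le
              nlinarith)
      (fun α hα => (hA α hα).1) (fun α hα => (hA α hα).2.1)
    exact h1

end Pool.Agent.E8helper4.FV
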