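import Mathlib
import Pool.Agent.Results.MP_83fd13_an.BranchSingularities

/-!
# FV: a convex Schiffer domain other than a disc has at least six vertices

Paper proof (helper4). Let `Ω` be a domain with (S) solvable, boundary `z(s)`, `X = conj z`,
`a = lam / 4`, `E_α = exp (α z - (a/α) X)`. Then `∮ E_α dz = 0` for all `α ≠ 0`.
1. (part A) For strictly convex `Ω` put `Y_α = ∫ E_{-α} dX` and
`Th(α) = ∮ E_α Y_α dX`, `La(α) = ∮ (z + (a/α²) X) E_α Y_α dX`. As `|α| → ∞` the boundary is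
traversed from the point with maximal `Re (α z)` monotonically and integration by parts gives
`α Th(α) → -∮ (dX/dz) dX`, `α La(α) → -∮ z (dX/dz) dX`. Both functions are holomorphic in `α ≠ 0`
and `conj` relates `α` and `-a / conj α`; by Liouville both vanish. Hence
`∮ e^{-3 i s} ρ ds = 0` and `∮ z e^{-3 i s} ρ ds = 0` (`s` the tangent angle, `ρ` the radius of
curvature).
2. (part B) for the support function `P`: `f = P' - A cos - B sin` vanishes at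
`s1 < s2 < s1 + π < s2 + π` for some `A, B`; by 1. `∫ sin (s - s1) sin (s - s2) f ρ = 0`, so the
sign pattern of `f` on the four arcs is not alternating, and a Sturm type argument for
`f + f'' = ρ'` gives six sign changes of `ρ'`.
3. (part C) coordinates.
-/

set_option autoImplicit false

open Complex MeasureTheory Metric Set Filter Topology ComplexConjugate
open Pool.Agent.Results.MP_83fd13_an.BranchSingularities (Solvable)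

namespace Pool.Agent.E8helper4.FV

/-- a closed strictly convex curve, parametrised by the tangent angle `s`; `ρ` is the radius of
curvature -/
structure Crv (ρ : ℝ → ℝ) (z : ℝ → ℂ) : Prop where
  cont : Continuous ρ
  pos : ∀ s, 0 < ρ s
  per : ∀ s, ρ (s + 2 * Real.pi) = ρ s
  perz : ∀ s, z (s + 2 * Real.pi) = z s
  der : ∀ s : ℝ, HasDerivAt z ((ρ s : ℂ) * exp ((s : ℂ) * I)) s

/-- the plane wave `E_α` on the curve -/
noncomputable def E (a : ℝ) (z : ℝ → ℂ) (α : ℂ) (s : ℝ) : ℂ :=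
  exp (α * z s - (a : ℂ) / α * conj (z s))

/-- `dX/ds` -/
noncomputable def dX (ρ : ℝ → ℝ) (s : ℝ) : ℂ := (ρ s : ℂ) * exp (-((s : ℂ) * I))

/-- `Y_α(s) = ∫_0^s E_{-α} dX` -/
noncomputable def Y (a : ℝ) (ρ : ℝ → ℝ) (z : ℝ → ℂ) (α : ℂ) (s : ℝ) : ℂ :=
  ∫ t in (0 : ℝ)..s, E a z (-α) t * dX ρ t

/-- `M_α = z + (a/α²) X` -/
noncomputable def M (a : ℝ) (z : ℝ → ℂ) (α : ℂ) (s : ℝ) : ℂ :=
  z s + (a : ℂ) / α ^ 2 * conj (z s)

/-- `Th(α) = ∮ E_α Y_α dX` -/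
noncomputable def Th (a : ℝ) (ρ : ℝ → ℝ) (z : ℝ → ℂ) (α : ℂ) : ℂ :=
  ∫ s in (0 : ℝ)..(2 * Real.pi), E a z α s * Y a ρ z α s * dX ρ s

/-- `La(α) = ∮ M_α E_α Y_α dX` -/
noncomputable def La (a : ℝ) (ρ : ℝ → ℝ) (z : ℝ → ℂ) (α : ℂ) : ℂ :=
  ∫ s in (0 : ℝ)..(2 * Real.pi), M a z α s * E a z α s * Y a ρ z α s * dX ρ s

/-- the linear identities `∮ E_α dz = 0` for all `α ≠ 0` -/
def Lin (a : ℝ) (ρ : ℝ → ℝ) (z : ℝ → ℂ) : Prop := ∀ α : ℂ, α ≠ 0 →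
  ∫ s in (0 : ℝ)..(2 * Real.pi), E a z α s * ((ρ s : ℂ) * exp ((s : ℂ) * I)) = 0

/-! ### part A -/

/-- A0: consequences of the linear identities: `∮ E_α dX = 0` and `∮ M_α E_α dX = 0`,
`∮ M_α E_α dz = 0`. (`d E_α = E_α (α dz - (a/α) dX)`; differentiate in `α`.) -/
def A0 : Prop := ∀ (a : ℝ) (ρ : ℝ → ℝ) (z : ℝ → ℂ), 0 < a → Crv ρ z → Lin a ρ z →
  ∀ α : ℂ, α ≠ 0 →
    (∫ s in (0 : ℝ)..(2 * Real.pi), E a z α s * dX ρ s = 0) ∧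
    (∫ s in (0 : ℝ)..(2 * Real.pi), M a z α s * E a z α s * dX ρ s = 0) ∧
    (∫ s in (0 : ℝ)..(2 * Real.pi), M a z α s * E a z α s *
      ((ρ s : ℂ) * exp ((s : ℂ) * I)) = 0)

/-- A1: holomorphy in `α ≠ 0` -/
def A1 : Prop := ∀ (a : ℝ) (ρ : ℝ → ℝ) (z : ℝ → ℂ), 0 < a → Crv ρ z →
  DifferentiableOn ℂ (Th a ρ z) {α : ℂ | α ≠ 0} ∧ DifferentiableOn ℂ (La a ρ z) {α : ℂ | α ≠ 0}

/-- A2: asymptotics at infinity -/
def A2 : Prop := A0 → ∀ (a : ℝ) (ρ : ℝ → ℝ) (z : ℝ → ℂ), 0 < a → Crv ρ z → Lin a ρ z →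
  Tendsto (fun α : ℂ => α * Th a ρ z α) (Bornology.cobounded ℂ)
    (𝓝 (-∫ s in (0 : ℝ)..(2 * Real.pi), exp (-(2 * (s : ℂ) * I)) * dX ρ s)) ∧
  Tendsto (fun α : ℂ => α * La a ρ z α) (Bornology.cobounded ℂ)
    (𝓝 (-∫ s in (0 : ℝ)..(2 * Real.pi), z s * exp (-(2 * (s : ℂ) * I)) * dX ρ s))

/-- A3: the symmetry `α ↦ -a / conj α` -/
def A3 : Prop := A0 → ∀ (a : ℝ) (ρ : ℝ → ℝ) (z : ℝ → ℂ), 0 < a → Crv ρ z → Lin a ρ z →
  (∀ α : ℂ, α ≠ 0 → conj (Th a ρ z α) =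
    (a : ℂ) ^ 2 / (-(a : ℂ) / conj α) ^ 4 * Th a ρ z (-(a : ℂ) / conj α)) ∧
  ((∀ α : ℂ, α ≠ 0 → Th a ρ z α = 0) → ∀ α : ℂ, α ≠ 0 → conj (La a ρ z α) =
    (a : ℂ) / (-(a : ℂ) / conj α) ^ 2 * La a ρ z (-(a : ℂ) / conj α))

/-- A4: Liouville -/
def A4 : Prop := ∀ (a c : ℝ) (f : ℂ → ℂ) (L : ℂ) (n : ℕ), 0 < a →
  DifferentiableOn ℂ f {α : ℂ | α ≠ 0} →
  Tendsto (fun α : ℂ => α * f α) (Bornology.cobounded ℂ) (𝓝 L) →
  (∀ α : ℂ, α ≠ 0 → conj (f α) = (c : ℂ) / (-(a : ℂ) / conj α) ^ n * f (-(a : ℂ) / conj α)) →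
  (∀ α : ℂ, α ≠ 0 → f α = 0) ∧ L = 0

/-- part A together -/
def AA : Prop := ∀ (a : ℝ) (ρ : ℝ → ℝ) (z : ℝ → ℂ), 0 < a → Crv ρ z → Lin a ρ z →
  (∫ s in (0 : ℝ)..(2 * Real.pi), exp (-(2 * (s : ℂ) * I)) * dX ρ s = 0) ∧
  (∫ s in (0 : ℝ)..(2 * Real.pi), z s * exp (-(2 * (s : ℂ) * I)) * dX ρ s = 0)

/-! ### part B -/

/-- B1: four zeros. `P` is `2π`-periodic and `C²`. -/
def B1 : Prop := ∀ P P1 : ℝ → ℝ, (∀ s, HasDerivAt P (P1 s) s) → Continuous P1 →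
  (∀ s, P (s + 2 * Real.pi) = P s) →
  ∃ s1 s2 A B : ℝ, s1 < s2 ∧ s2 < s1 + Real.pi ∧
    P1 s1 = A * Real.cos s1 + B * Real.sin s1 ∧
    P1 s2 = A * Real.cos s2 + B * Real.sin s2 ∧
    P1 (s1 + Real.pi) = A * Real.cos (s1 + Real.pi) + B * Real.sin (s1 + Real.pi) ∧
    P1 (s2 + Real.pi) = A * Real.cos (s2 + Real.pi) + B * Real.sin (s2 + Real.pi)

/-- six points, in cyclic order, at which `g` is alternately positive and negative -/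
def Six (g : ℝ → ℝ) : Prop := ∃ t : Fin 6 → ℝ, StrictMono t ∧ t 5 < t 0 + 2 * Real.pi ∧
  ∀ i : Fin 6, 0 < (-1 : ℝ) ^ (i : ℕ) * g (t i)

/-- B2: the Sturm type argument: `g = f + f''`, `f` vanishes at `s1, s2, s1 + π, s2 + π`, at no
point an interval of zeros, and `sin (s - s1) sin (s - s2) f` takes both signs -/
def B2 : Prop := ∀ (f f1 g : ℝ → ℝ) (s1 s2 u v : ℝ), (∀ s, HasDerivAt f (f1 s) s) →
  (∀ s, HasDerivAt f1 (g s - f s) s) → Continuous g → (∀ s, f (s + 2 * Real.pi) = f s) →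
  s1 < s2 → s2 < s1 + Real.pi → f s1 = 0 → f s2 = 0 → f (s1 + Real.pi) = 0 →
  f (s2 + Real.pi) = 0 → (∀ c d : ℝ, c < d → ∃ s ∈ Ioo c d, f s ≠ 0) →
  0 < Real.sin (u - s1) * Real.sin (u - s2) * f u →
  Real.sin (v - s1) * Real.sin (v - s2) * f v < 0 → Six g

/-- B3: from the integral identities, given B1 and B2 -/
def B3 : Prop := B1 → B2 → ∀ P P1 R R1 : ℝ → ℝ, (∀ s, HasDerivAt P (P1 s) s) →
  (∀ s, HasDerivAt P1 (R s - P s) s) → (∀ s, HasDerivAt R (R1 s) s) → Continuous R1 →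
  (∀ s, P (s + 2 * Real.pi) = P s) → (∀ s, 0 < R s) →
  (∀ A B c d : ℝ, c < d → (∀ s ∈ Ioo c d, P1 s = A * Real.cos s + B * Real.sin s) →
    ∀ s, P1 s = A * Real.cos s + B * Real.sin s) →
  ∫ s in (0 : ℝ)..(2 * Real.pi), R s * Real.cos (3 * s) = 0 →
  ∫ s in (0 : ℝ)..(2 * Real.pi), R s * Real.sin (3 * s) = 0 →
  ∫ s in (0 : ℝ)..(2 * Real.pi), P1 s * R s * Real.cos (2 * s) = 0 →
  ∫ s in (0 : ℝ)..(2 * Real.pi), P1 s * R s * Real.sin (2 * s) = 0 →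
  (∃ A B : ℝ, ∀ s, P1 s = A * Real.cos s + B * Real.sin s) ∨ Six R1

/-! ### part C -/

/-- numerator of the curvature: the derivative of the tangent angle -/
noncomputable def om (φ : ℂ → ℂ) (t : ℝ) : ℝ :=
  (1 + exp ((t : ℂ) * I) * deriv (deriv φ) (exp ((t : ℂ) * I)) / deriv φ (exp ((t : ℂ) * I))).re

/-- the curvature of the curve `t ↦ φ (e^{it})` -/
noncomputable def kap (φ : ℂ → ℂ) (t : ℝ) : ℝ := om φ t / ‖deriv φ (exp ((t : ℂ) * I))‖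

/-- C1: the linear identities on the unit circle -/
def C1 : Prop := ∀ (φ : ℂ → ℂ) (r lam : ℝ), 1 < r → DifferentiableOn ℂ φ (ball 0 r) →
  InjOn φ (ball 0 r) → 0 < lam → Solvable (φ '' ball 0 1) lam → ∀ α β : ℂ,
  α * β = -((lam / 4 : ℝ) : ℂ) →
  ∮ w in C(0, 1), exp (α * φ w + β * conj (φ w)) * deriv φ w = 0

/-- the tangent angle `th` and its inverse `T` -/
structure Ang (φ : ℂ → ℂ) (th T : ℝ → ℝ) : Prop where
  tan : ∀ t : ℝ, I * exp ((t : ℂ) * I) * deriv φ (exp ((t : ℂ) * I)) =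
    (‖deriv φ (exp ((t : ℂ) * I))‖ : ℂ) * exp ((th t : ℂ) * I)
  dth : ∀ t : ℝ, HasDerivAt th (om φ t) t
  pth : ∀ t : ℝ, th (t + 2 * Real.pi) = th t + 2 * Real.pi
  thT : ∀ s : ℝ, th (T s) = s
  Tth : ∀ t : ℝ, T (th t) = t
  pT : ∀ s : ℝ, T (s + 2 * Real.pi) = T s + 2 * Real.pi
  dT : ∀ s : ℝ, HasDerivAt T (1 / om φ (T s)) s
  mT : StrictMono T

/-- C2: existence of the tangent angle (write `φ' = exp L` in the disc) -/
def C2 : Prop := ∀ (φ : ℂ → ℂ) (r : ℝ), 1 < r → DifferentiableOn ℂ φ (ball 0 r) →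
  InjOn φ (ball 0 r) → (∀ t, 0 < om φ t) → ∃ th T : ℝ → ℝ, Ang φ th T

/-- the curve in the tangent angle parametrisation -/
noncomputable def zz (φ : ℂ → ℂ) (T : ℝ → ℝ) (s : ℝ) : ℂ := φ (exp ((T s : ℂ) * I))

/-- the radius of curvature as a function of the tangent angle -/
noncomputable def rr (φ : ℂ → ℂ) (T : ℝ → ℝ) (s : ℝ) : ℝ :=
  ‖deriv φ (exp ((T s : ℂ) * I))‖ / om φ (T s)

/-- C3: `zz, rr` is a curve as above; smoothness and relation to the curvature; change of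
variables in the linear identities; the support function and its analyticity in the weak form
needed in B3; in the case `P1 = A cos + B sin` the domain is a disc. -/
def C3 : Prop := ∀ (φ : ℂ → ℂ) (r : ℝ) (th T : ℝ → ℝ), 1 < r →
  DifferentiableOn ℂ φ (ball 0 r) → InjOn φ (ball 0 r) → (∀ t, 0 < om φ t) → Ang φ th T →
  Crv (rr φ T) (zz φ T) ∧
  (∀ a : ℝ, (∀ α β : ℂ, α * β = -(a : ℂ) →
    ∮ w in C(0, 1), exp (α * φ w + β * conj (φ w)) * deriv φ w = 0) →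
    Lin a (rr φ T) (zz φ T))

/-- C4 -/
def C4 : Prop := ∀ (φ : ℂ → ℂ) (r : ℝ) (th T : ℝ → ℝ), 1 < r →
  DifferentiableOn ℂ φ (ball 0 r) → InjOn φ (ball 0 r) → (∀ t, 0 < om φ t) → Ang φ th T →
  ∃ R1 : ℝ → ℝ, Continuous R1 ∧ (∀ s, HasDerivAt (rr φ T) (R1 s) s) ∧
    ∀ s, 0 < R1 s * -deriv (kap φ) (T s) ∨ (R1 s = 0 ∧ deriv (kap φ) (T s) = 0)

/-- C5: `P1(s) = Re (e^{-is} z(s))` is analytic in the weak sense, and a multiple of `cos, sin` only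
for discs -/
def C5 : Prop := ∀ (φ : ℂ → ℂ) (r : ℝ) (th T : ℝ → ℝ), 1 < r →
  DifferentiableOn ℂ φ (ball 0 r) → InjOn φ (ball 0 r) → (∀ t, 0 < om φ t) → Ang φ th T →
  (∀ A B c d : ℝ, c < d →
    (∀ s : ℝ, s ∈ Ioo c d →
      (exp (-((s : ℂ) * I)) * zz φ T s).re = A * Real.cos s + B * Real.sin s) →
    ∀ s : ℝ, (exp (-((s : ℂ) * I)) * zz φ T s).re = A * Real.cos s + B * Real.sin s) ∧
  (∀ A B : ℝ,
    (∀ s : ℝ, (exp (-((s : ℂ) * I)) * zz φ T s).re = A * Real.cos s + B * Real.sin s) →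
    ∃ (p : ℂ) (R : ℝ), 0 < R ∧ φ '' ball 0 1 = ball p R)

/-- C6: from `Crv` and part A to the real identities for the support function
`P(s) = Re (i e^{-is} z(s))`, `P1(s) = Re (e^{-is} z(s))` -/
def C6 : Prop := ∀ (ρ : ℝ → ℝ) (z : ℝ → ℂ), Crv ρ z →
  (∀ s : ℝ, HasDerivAt (fun s : ℝ => (I * exp (-((s : ℂ) * I)) * z s).re)
    ((exp (-((s : ℂ) * I)) * z s).re) s) ∧
  (∀ s : ℝ, HasDerivAt (fun s : ℝ => (exp (-((s : ℂ) * I)) * z s).re)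
    (ρ s - (I * exp (-((s : ℂ) * I)) * z s).re) s) ∧
  (∫ s in (0 : ℝ)..(2 * Real.pi), exp (-(2 * (s : ℂ) * I)) * dX ρ s = 0 →
    ∫ s in (0 : ℝ)..(2 * Real.pi), z s * exp (-(2 * (s : ℂ) * I)) * dX ρ s = 0 →
    ∫ s in (0 : ℝ)..(2 * Real.pi), ρ s * Real.cos (3 * s) = 0 ∧
    ∫ s in (0 : ℝ)..(2 * Real.pi), ρ s * Real.sin (3 * s) = 0 ∧
    ∫ s in (0 : ℝ)..(2 * Real.pi), (exp (-((s : ℂ) * I)) * z s).re * ρ s *
      Real.cos (2 * s) = 0 ∧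
    ∫ s in (0 : ℝ)..(2 * Real.pi), (exp (-((s : ℂ) * I)) * z s).re * ρ s *
      Real.sin (2 * s) = 0)

/-- the final theorem -/
def Fin6 : Prop := ∀ (φ : ℂ → ℂ) (r lam : ℝ), 1 < r → DifferentiableOn ℂ φ (ball 0 r) →
  InjOn φ (ball 0 r) → 0 < lam → Solvable (φ '' ball 0 1) lam → (∀ t, 0 < kap φ t) →
  (∃ (p : ℂ) (R : ℝ), 0 < R ∧ φ '' ball 0 1 = ball p R) ∨
  ∃ t : Fin 6 → ℝ, StrictMono t ∧ t 5 < t 0 + 2 * Real.pi ∧
    ∀ i : Fin 6, 0 < (-1 : ℝ) ^ (i : ℕ) * -deriv (kap φ) (t i)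

end Pool.Agent.E8helper4.FV
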