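import Pool.Agent.E8helper4.FV.Stm
import Pool.Agent.Y245.SC.Main1

/-!
# FV, second round

KI: the identities `∮ (dX/dz) dX = 0`, `∮ z (dX/dz) dX = 0` for EVERY Schiffer domain `φ(D)` (no
convexity), and the six vertices theorem for all convex domains (curvature `≥ 0`).

Paper proof of KI. `x(t) = φ(e^{it})`, `X = conj x`, `a = lam/4`,
`κ_m(A, Y) = (1/2π) ∫ exp (e^{iτ} A + e^{-iτ} Y - i m τ) dτ`. By the library `Zf a φ` (index `-2`)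
extends to the disc; its iterated `dz`-primitives and derivatives give holomorphic `N_m` with
`N_m = h_m + local term` on the circle, `h_m(t) = ∫_0^t κ_m(x t - x s, a X s) dx(s)`. The library
property `SerProp`, applied to sequences built from `N_m`, gives on the circle (Taylor:
`Σ_k Z^k/k! κ_{m+k}(A, Y) = κ_m(A, Y + Z)`, `Z = -a X(t)`)
`U_m = 0 (m ≥ 0)`, `V_1 + a W_3 = 0`, `a ∮ X_z dX + U_{-3} = 0`,
`a ∮ z X_z dX + V_{-3} + a W_{-1} = 0`. Complex conjugation and exchange of the order of the double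
integrals (full loops vanish by `C1`) give `conj U_{-3} = (-a)³ U_3` and
`conj (V_{-3} + a W_{-1}) = a² (2 U_2 - (V_1 + a W_3))`.
-/

set_option autoImplicit false

open Complex MeasureTheory Metric Set Filter Topology ComplexConjugate
open Pool.Agent.Results.MP_83fd13_an.BranchSingularities (Solvable)

namespace Pool.Agent.E8helper4.FV

/-- `x(t) = φ(e^{it})` -/
noncomputable def xx (φ : ℂ → ℂ) (t : ℝ) : ℂ := φ (exp ((t : ℂ) * I))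

/-- `x'(t)` -/
noncomputable def xd (φ : ℂ → ℂ) (t : ℝ) : ℂ :=
  I * exp ((t : ℂ) * I) * deriv φ (exp ((t : ℂ) * I))

/-- the kernels -/
noncomputable def kp (m : ℤ) (A Y : ℂ) : ℂ :=
  1 / (2 * Real.pi) * ∫ τ in (0 : ℝ)..(2 * Real.pi),
    exp (exp ((τ : ℂ) * I) * A + exp (-((τ : ℂ) * I)) * Y - (m : ℂ) * (τ : ℂ) * I)

/-- `h_m(t) = ∫_0^t κ_m(x t - x s, a X s) dx(s)` -/
noncomputable def hh (a : ℝ) (φ : ℂ → ℂ) (m : ℤ) (t : ℝ) : ℂ :=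
  ∫ s in (0 : ℝ)..t, kp m (xx φ t - xx φ s) ((a : ℂ) * conj (xx φ s)) * xd φ s

/-- `H_m(t) = ∫_0^t κ_m(x t - x s, -a (X t - X s)) dx(s)` -/
noncomputable def HH (a : ℝ) (φ : ℂ → ℂ) (m : ℤ) (t : ℝ) : ℂ :=
  ∫ s in (0 : ℝ)..t, kp m (xx φ t - xx φ s) (-(a : ℂ) * (conj (xx φ t) - conj (xx φ s))) * xd φ s

/-- `U_m = ∮ H_m dX` -/
noncomputable def UU (a : ℝ) (φ : ℂ → ℂ) (m : ℤ) : ℂ :=
  ∫ t in (0 : ℝ)..(2 * Real.pi), HH a φ m t * conj (xd φ t)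

/-- `V_m = ∮ x H_m dX` -/
noncomputable def VV (a : ℝ) (φ : ℂ → ℂ) (m : ℤ) : ℂ :=
  ∫ t in (0 : ℝ)..(2 * Real.pi), xx φ t * HH a φ m t * conj (xd φ t)

/-- `W_m = ∮ X H_m dX` -/
noncomputable def WW (a : ℝ) (φ : ℂ → ℂ) (m : ℤ) : ℂ :=
  ∫ t in (0 : ℝ)..(2 * Real.pi), conj (xx φ t) * HH a φ m t * conj (xd φ t)

/-- `I1 = ∮ (dX/dz) dX` -/
noncomputable def J1 (φ : ℂ → ℂ) : ℂ :=
  ∫ t in (0 : ℝ)..(2 * Real.pi), conj (xd φ t) ^ 2 / xd φ t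

/-- `I2 = ∮ z (dX/dz) dX` -/
noncomputable def J2 (φ : ℂ → ℂ) : ℂ :=
  ∫ t in (0 : ℝ)..(2 * Real.pi), xx φ t * (conj (xd φ t) ^ 2 / xd φ t)

/-! ### kernels -/

/-- K1: facts from the integral representation -/
def K1 : Prop := ∀ m : ℤ,
  (Continuous fun p : ℂ × ℂ => kp m p.1 p.2) ∧
  (∀ A Y : ℂ, HasDerivAt (fun A => kp m A Y) (kp (m - 1) A Y) A) ∧
  (∀ A Y : ℂ, HasDerivAt (fun Y => kp m A Y) (kp (m + 1) A Y) Y) ∧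
  (∀ A Y : ℂ, ‖kp m A Y‖ ≤ Real.exp (‖A‖ + ‖Y‖)) ∧
  (∀ A Y Z : ℂ, HasSum (fun k : ℕ => Z ^ k / (k.factorial : ℂ) * kp (m + k) A Y)
    (kp m A (Y + Z))) ∧
  (∀ A Y : ℂ, kp m A Y = kp (-m) Y A) ∧
  (∀ A Y : ℂ, kp m (-A) (-Y) = (-1) ^ m * kp m A Y) ∧
  (∀ A Y : ℂ, conj (kp m A Y) = kp m (conj A) (conj Y)) ∧
  (∀ A Y : ℂ, A * kp (m - 1) A Y - Y * kp (m + 1) A Y = m * kp m A Y)

/-- K1b: facts from the power series; `kap` is the library kernel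
`∑ (-a)^(k+1) x^k / (k! (k+2)!)` -/
def K1b : Prop :=
  (∀ (n : ℕ) (A Y : ℂ), HasSum (fun i : ℕ =>
    Y ^ i * A ^ (i + n) / ((i.factorial : ℂ) * ((i + n).factorial : ℂ))) (kp n A Y)) ∧
  (∀ Y : ℂ, kp 0 0 Y = 1 ∧ kp (-1) 0 Y = Y ∧ kp (-2) 0 Y = Y ^ 2 / 2) ∧
  (∀ m : ℤ, 0 < m → ∀ Y : ℂ, kp m 0 Y = 0) ∧
  (∀ (m : ℤ) (c A Y : ℂ), c ≠ 0 → kp m (c * A) Y = c ^ m * kp m A (c * Y)) ∧
  (∀ (a : ℝ) (A ξ : ℂ), 0 < a →
    -(a : ℂ) * (ξ ^ 2 * Pool.Agent.Y245.SC.kap a (ξ * (-A))) = kp (-2) A ((a : ℂ) * ξ))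

/-- K2: the derivative of `h_m` -/
def K2 : Prop := K1 → ∀ (φ : ℂ → ℂ) (r a : ℝ), 1 < r → DifferentiableOn ℂ φ (ball 0 r) →
  ∀ (m : ℤ) (t : ℝ), HasDerivAt (hh a φ m)
    (xd φ t * (kp m 0 ((a : ℂ) * conj (xx φ t)) + hh a φ (m - 1) t)) t

/-- K3: the holomorphic family `N_m`. Start: `N_{-2} = a *` (extension of `Zf a φ` to `ball 0 r`, see
the proof of `Pool.Agent.Y245.SC.volt_of_sol`: `z1, z2, z3, t_EXT`), then primitives vanishing at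
`w = 1` (plus `1` for `m = -1`) and derivatives. -/
def K3 : Prop := K1 → K1b → K2 → ∀ (φ : ℂ → ℂ) (r lam : ℝ), 1 < r →
  DifferentiableOn ℂ φ (ball 0 r) → InjOn φ (ball 0 r) → 0 < lam →
  Solvable (φ '' ball 0 1) lam →
  ∃ N : ℤ → ℂ → ℂ, (∀ m, DifferentiableOn ℂ (N m) (ball 0 r)) ∧
    (∀ m, ∀ w ∈ ball (0 : ℂ) r, deriv (N (m + 1)) w = N m w * deriv φ w) ∧
    (∀ m : ℤ, 0 ≤ m → ∀ t : ℝ, N m (exp ((t : ℂ) * I)) = hh (lam / 4) φ m t) ∧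
    (∀ t : ℝ, N (-1) (exp ((t : ℂ) * I)) = 1 + hh (lam / 4) φ (-1) t) ∧
    (∀ t : ℝ, N (-2) (exp ((t : ℂ) * I)) =
      ((lam / 4 : ℝ) : ℂ) * conj (xx φ t) + hh (lam / 4) φ (-2) t) ∧
    (∀ t : ℝ, N (-3) (exp ((t : ℂ) * I)) =
      ((lam / 4 : ℝ) : ℂ) * (conj (xd φ t) / xd φ t) +
      (((lam / 4 : ℝ) : ℂ) * conj (xx φ t)) ^ 2 / 2 + hh (lam / 4) φ (-3) t) ∧
    (∃ C : ℝ, ∀ m : ℤ, 0 ≤ m → ∀ w ∈ closedBall (0 : ℂ) 1, ‖N m w‖ ≤ C)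

/-- K4: the library property `SerProp`, integrated by parts. (Apply it to the sequence
`deriv (s 0) / deriv φ, s 0, s 1, ...`.) -/
def K4 : Prop := ∀ (φ : ℂ → ℂ) (r lam : ℝ), 1 < r → DifferentiableOn ℂ φ (ball 0 r) →
  InjOn φ (ball 0 r) → 0 < lam → Solvable (φ '' ball 0 1) lam → ∀ s : ℕ → ℂ → ℂ,
  (∀ k, DifferentiableOn ℂ (s k) (ball 0 r)) →
  (∀ k, ∀ w ∈ ball (0 : ℂ) r, deriv (s (k + 1)) w = s k w * deriv φ w) →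
  (∃ C M : ℝ, ∀ k, ∀ w ∈ closedBall (0 : ℂ) 1, ‖s k w‖ ≤ C * M ^ k) →
  HasSum (fun k : ℕ => (-((lam / 4 : ℝ) : ℂ)) ^ k / (k.factorial : ℂ) *
    ∫ t in (0 : ℝ)..(2 * Real.pi), conj (xx φ t) ^ k * s k (exp ((t : ℂ) * I)) *
      conj (xd φ t)) 0

/-- K5a: sums with non-negative indices: `s k = N (k+3)`, `N (k+2)`, `φ N (k+1) - k N (k+2)` -/
def K5a : Prop := K1 → K1b → K2 → K3 → K4 → ∀ (φ : ℂ → ℂ) (r lam : ℝ), 1 < r →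
  DifferentiableOn ℂ φ (ball 0 r) → InjOn φ (ball 0 r) → 0 < lam →
  Solvable (φ '' ball 0 1) lam →
  UU (lam / 4) φ 3 = 0 ∧ UU (lam / 4) φ 2 = 0 ∧
  VV (lam / 4) φ 1 + ((lam / 4 : ℝ) : ℂ) * WW (lam / 4) φ 3 = 0

/-- K5b: sums with local terms: `s k = N (k-3)` and `s k = φ N (k-3) - k N (k-2)`; the local terms of
`Σ (-a X)^k/k! N_{k-3}` are `a X_z + (aX)²/2 - (aX)² + (aX)²/2 = a X_z` -/
def K5b : Prop := K1 → K1b → K2 → K3 → K4 → ∀ (φ : ℂ → ℂ) (r lam : ℝ), 1 < r →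
  DifferentiableOn ℂ φ (ball 0 r) → InjOn φ (ball 0 r) → 0 < lam →
  Solvable (φ '' ball 0 1) lam →
  ((lam / 4 : ℝ) : ℂ) * J1 φ + UU (lam / 4) φ (-3) = 0 ∧
  ((lam / 4 : ℝ) : ℂ) * J2 φ + (VV (lam / 4) φ (-3) +
    ((lam / 4 : ℝ) : ℂ) * WW (lam / 4) φ (-1)) = 0

/-- K6: conjugation and exchange of the order of integration. With
`K_m(t, s) = κ_m(x t - x s, -a (X t - X s))`: `conj K_m = (-a)^(-m) K_{-m}`,
`K_m(s, t) = (-1)^m K_m(t, s)`, and for fixed `s` the full loops `∮ K_3 dx(t)` and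
`∮ (a X K_3 + x K_1) dx(t)` vanish by `C1` (`α = e^{iτ}`, `β = -a e^{-iτ}`, and its derivative in
`α`). `A κ_1 - Y κ_3 = 2 κ_2`. -/
def K6 : Prop := K1 → K1b → C1 → ∀ (φ : ℂ → ℂ) (r lam : ℝ), 1 < r →
  DifferentiableOn ℂ φ (ball 0 r) → InjOn φ (ball 0 r) → 0 < lam →
  Solvable (φ '' ball 0 1) lam →
  conj (UU (lam / 4) φ (-3)) = (-((lam / 4 : ℝ) : ℂ)) ^ 3 * UU (lam / 4) φ 3 ∧
  conj (VV (lam / 4) φ (-3) + ((lam / 4 : ℝ) : ℂ) * WW (lam / 4) φ (-1)) =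
    ((lam / 4 : ℝ) : ℂ) ^ 2 * (2 * UU (lam / 4) φ 2 -
      (VV (lam / 4) φ 1 + ((lam / 4 : ℝ) : ℂ) * WW (lam / 4) φ 3))

/-- KI together -/
def KI : Prop := ∀ (φ : ℂ → ℂ) (r lam : ℝ), 1 < r → DifferentiableOn ℂ φ (ball 0 r) →
  InjOn φ (ball 0 r) → 0 < lam → Solvable (φ '' ball 0 1) lam → J1 φ = 0 ∧ J2 φ = 0

/-! ### six vertices for curvature `≥ 0` -/

/-- the tangent angle when the curvature is `≥ 0` -/
structure Ang2 (φ : ℂ → ℂ) (th : ℝ → ℝ) : Prop where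
  tan : ∀ t : ℝ, xd φ t = (‖deriv φ (exp ((t : ℂ) * I))‖ : ℂ) * exp ((th t : ℂ) * I)
  dth : ∀ t : ℝ, HasDerivAt th (om φ t) t
  pth : ∀ t : ℝ, th (t + 2 * Real.pi) = th t + 2 * Real.pi
  mth : StrictMono th

/-- D1: existence (strictly monotone since `om` is analytic and not identically `0`) -/
def D1 : Prop := ∀ (φ : ℂ → ℂ) (r : ℝ), 1 < r → DifferentiableOn ℂ φ (ball 0 r) →
  InjOn φ (ball 0 r) → (∀ t, 0 ≤ om φ t) → ∃ th : ℝ → ℝ, Ang2 φ th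

/-- `f_b(t) = Re (e^{-i th} (x - b))` -/
noncomputable def fb (φ : ℂ → ℂ) (th : ℝ → ℝ) (b : ℂ) (t : ℝ) : ℝ :=
  (exp (-((th t : ℂ) * I)) * (xx φ t - b)).re

/-- D2: four zeros at two pairs of points with opposite tangents. (`P(s) = Re (i e^{-is} x(T s))`,
`T` the inverse of `th`, is `C¹` with `P' = Re (e^{-is} x(T s))` also where `om = 0`; then B1.) -/
def D2 : Prop := B1 → ∀ (φ : ℂ → ℂ) (r : ℝ) (th : ℝ → ℝ), 1 < r →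
  DifferentiableOn ℂ φ (ball 0 r) → (∀ t, 0 ≤ om φ t) → Ang2 φ th →
  ∃ (t1 t2 t3 t4 : ℝ) (b : ℂ), t1 < t2 ∧ t2 < t3 ∧ t3 < t4 ∧ t4 < t1 + 2 * Real.pi ∧
    th t3 = th t1 + Real.pi ∧ th t4 = th t2 + Real.pi ∧
    fb φ th b t1 = 0 ∧ fb φ th b t2 = 0 ∧ fb φ th b t3 = 0 ∧ fb φ th b t4 = 0

/-- D3: the Sturm type argument with `κ ≥ 0`. As B2 (helper81); new: in each application of the
comparison argument `κ` is monotone on the interval and positive at the end point where `f = 0` and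
`f' ≤ 0` (as `f' = v (1 - κ h)` there), hence positive on the whole interval, so `ρ = 1/κ` can be
used: `((1/κ - h) sin (th - c) - f cos (th - c))' = (1/κ)' sin (th - c)`,
`((1/κ - h) sin (c - th) + f cos (c - th))' = (1/κ)' sin (c - th)`. -/
def D3 : Prop := ∀ (f h th om v κ κ1 : ℝ → ℝ) (t1 t2 t3 t4 p q : ℝ),
  (∀ t, HasDerivAt f (v t - om t * h t) t) → (∀ t, HasDerivAt h (om t * f t) t) →
  (∀ t, HasDerivAt th (om t) t) → (∀ t, HasDerivAt κ (κ1 t) t) → Continuous κ1 →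
  (∀ t, 0 < v t) → (∀ t, 0 ≤ κ t) → (∀ t, om t = κ t * v t) → StrictMono th →
  (∀ t, th (t + 2 * Real.pi) = th t + 2 * Real.pi) → (∀ t, f (t + 2 * Real.pi) = f t) →
  (∀ t, κ (t + 2 * Real.pi) = κ t) →
  t1 < t2 → t2 < t3 → t3 < t4 → t4 < t1 + 2 * Real.pi → th t3 = th t1 + Real.pi →
  th t4 = th t2 + Real.pi → f t1 = 0 → f t2 = 0 → f t3 = 0 → f t4 = 0 →
  (∀ c d : ℝ, c < d → ∃ s ∈ Ioo c d, f s ≠ 0) →
  0 < Real.sin (th p - th t1) * Real.sin (th p - th t2) * f p →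
  Real.sin (th q - th t1) * Real.sin (th q - th t2) * f q < 0 → Six fun t => -κ1 t

/-- D4: the integral identity from `J1 = J2 = 0`, and the two signs. -/
def D4 : Prop := ∀ (φ : ℂ → ℂ) (r : ℝ) (th : ℝ → ℝ) (b : ℂ) (t1 t2 : ℝ), 1 < r →
  DifferentiableOn ℂ φ (ball 0 r) → InjOn φ (ball 0 r) → Ang2 φ th → J1 φ = 0 → J2 φ = 0 →
  (∃ s, fb φ th b s ≠ 0) → (∀ c d : ℝ, c < d → ∃ s ∈ Ioo c d, fb φ th b s ≠ 0) →
  ∃ p q : ℝ, 0 < Real.sin (th p - th t1) * Real.sin (th p - th t2) * fb φ th b p ∧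
    Real.sin (th q - th t1) * Real.sin (th q - th t2) * fb φ th b q < 0

/-- D5: analyticity: `f_b` vanishes on an interval only for discs. (`‖φ'‖ f_b = Re (conj (x') (x-b))`
is real analytic.) -/
def D5 : Prop := ∀ (φ : ℂ → ℂ) (r : ℝ) (th : ℝ → ℝ) (b : ℂ) (c d : ℝ), 1 < r →
  DifferentiableOn ℂ φ (ball 0 r) → InjOn φ (ball 0 r) → Ang2 φ th → c < d →
  (∀ s ∈ Ioo c d, fb φ th b s = 0) →
  ∃ (p : ℂ) (R : ℝ), 0 < R ∧ φ '' ball 0 1 = ball p R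

/-- the final theorem, second form: identities for all Schiffer domains, and six vertices for
curvature `≥ 0` -/
def Fin7 : Prop := ∀ (φ : ℂ → ℂ) (r lam : ℝ), 1 < r → DifferentiableOn ℂ φ (ball 0 r) →
  InjOn φ (ball 0 r) → 0 < lam → Solvable (φ '' ball 0 1) lam →
  (J1 φ = 0 ∧ J2 φ = 0) ∧
  ((∀ t, 0 ≤ kap φ t) →
  (∃ (p : ℂ) (R : ℝ), 0 < R ∧ φ '' ball 0 1 = ball p R) ∨
  ∃ t : Fin 6 → ℝ, StrictMono t ∧ t 5 < t 0 + 2 * Real.pi ∧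
    ∀ i : Fin 6, 0 < (-1 : ℝ) ^ (i : ℕ) * -deriv (kap φ) (t i))

end Pool.Agent.E8helper4.FV
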