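import Pool.Agent.E8helper4.FV.Stm2

/-!
# FV, third round

KF: the full cubic identity `∮ (V1 · n) (V2 · n) (V3 · n) ds = 0` for all Killing fields
`V(x) = β + i ω x` and EVERY Schiffer domain. Put `a = lam / 4`,
`(𝒟 q)_m = x q_{m-1} + a X q_{m+1} - m q_m` and
`Q_m(σ, t) = ∫_0^t κ_m(x t - e^{-σ} x s, -a (X t - e^σ X s)) dx(s)`. Then `Q_m(0, t) = H_m(t)`,
`∂_σ Q = 𝒟 Q` (recurrence of the kernels), `∮ (𝒟^k (ℓ + H))_m dX = 0` for `m ≥ k - 3` (`ℓ` the local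
terms), and, for real `σ`,
`conj ∮ Q_m(σ, t) dX = -a^{-m} e^{-σ m} ∮ Q_{-m}(σ, t) dX` (G3).
The derivatives of G3 at `σ = 0` of order `k = 0, 1, 2, 3` for `m = -3, -2, -1, 0` give
`J1 = 0`, `J2 = 0`, `J3 = 0`, `Re J4 = 0`.
-/

set_option autoImplicit false

open Complex MeasureTheory Metric Set Filter Topology ComplexConjugate
open Pool.Agent.Results.MP_83fd13_an.BranchSingularities (Solvable)

namespace Pool.Agent.E8helper4.FV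

/-- the operator `𝒟` at the point `x(t)` -/
noncomputable def DD (a : ℝ) (φ : ℂ → ℂ) (t : ℝ) (q : ℤ → ℂ) : ℤ → ℂ := fun m =>
  xx φ t * q (m - 1) + (a : ℂ) * conj (xx φ t) * q (m + 1) - (m : ℂ) * q m

/-- the local terms -/
noncomputable def el (a : ℝ) (φ : ℂ → ℂ) (t : ℝ) : ℤ → ℂ := fun m =>
  if m = -1 then 1 else if m = -3 then (a : ℂ) * (conj (xd φ t) / xd φ t) else 0

/-- `Q_m(σ, t)` -/
noncomputable def QQ (a : ℝ) (φ : ℂ → ℂ) (σ t : ℝ) : ℤ → ℂ := fun m =>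
  ∫ s in (0 : ℝ)..t, kp m (xx φ t - (Real.exp (-σ) : ℂ) * xx φ s)
    (-(a : ℂ) * (conj (xx φ t) - (Real.exp σ : ℂ) * conj (xx φ s))) * xd φ s

/-- `∮ (𝒟^k Q(σ, t))_m dX` -/
noncomputable def TT (a : ℝ) (φ : ℂ → ℂ) (k : ℕ) (m : ℤ) (σ : ℝ) : ℂ :=
  ∫ t in (0 : ℝ)..(2 * Real.pi), ((DD a φ t)^[k] (QQ a φ σ t)) m * conj (xd φ t)

/-- `J3 = ∮ z² (dX/dz) dX` -/
noncomputable def J3 (φ : ℂ → ℂ) : ℂ :=
  ∫ t in (0 : ℝ)..(2 * Real.pi), xx φ t ^ 2 * (conj (xd φ t) ^ 2 / xd φ t)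

/-- `J4 = ∮ z³ (dX/dz) dX` -/
noncomputable def J4 (φ : ℂ → ℂ) : ℂ :=
  ∫ t in (0 : ℝ)..(2 * Real.pi), xx φ t ^ 3 * (conj (xd φ t) ^ 2 / xd φ t)

/-- G1 -/
def G1 : Prop := K1 → K1b → K2 → K3 → K4 → ∀ (φ : ℂ → ℂ) (r lam : ℝ), 1 < r →
  DifferentiableOn ℂ φ (ball 0 r) → InjOn φ (ball 0 r) → 0 < lam →
  Solvable (φ '' ball 0 1) lam → ∀ (k : ℕ) (m : ℤ), (k : ℤ) - 3 ≤ m →
  ∫ t in (0 : ℝ)..(2 * Real.pi), ((DD (lam / 4) φ t)^[k]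
    (fun m => el (lam / 4) φ t m + HH (lam / 4) φ m t)) m * conj (xd φ t) = 0

/-- G2: differentiation in `σ`. `∂_σ κ_m(x t - e^{-σ} x s, -a (X t - e^σ X s)) = 𝒟 κ` by the
recurrence `A κ_{m-1} - Y κ_{m+1} = m κ_m` of `K1`. -/
def G2 : Prop := K1 → ∀ (a : ℝ) (φ : ℂ → ℂ) (r : ℝ), 1 < r → DifferentiableOn ℂ φ (ball 0 r) →
  ∀ (k : ℕ) (m : ℤ) (σ : ℝ), HasDerivAt (TT a φ k m) (TT a φ (k + 1) m σ) σ

/-- G3: the symmetry. With `Φ_m(t, s) = κ_m(x t - e^{-σ} x s, -a (X t - e^σ X s))`: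
`conj Φ_m(t, s) = a^(-m) e^(-σ m) Φ_{-m}(s, t)` (symmetry, conjugation and scaling with
`c = -a` and `c = -e^σ`); exchange of the order of integration and
`∫_0^{2π} Φ_{-m}(t, s) dx(s) = 0` for fixed `t` (C1 with `α = -e^{iτ-σ}`, `β = a e^{σ-iτ}`).
As K6 of helper13, but with a parameter. -/
def G3 : Prop := K1 → K1b → C1 → ∀ (φ : ℂ → ℂ) (r lam : ℝ), 1 < r →
  DifferentiableOn ℂ φ (ball 0 r) → InjOn φ (ball 0 r) → 0 < lam →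
  Solvable (φ '' ball 0 1) lam → ∀ (m : ℤ) (σ : ℝ),
  conj (TT (lam / 4) φ 0 m σ) =
    -(((lam / 4 : ℝ) : ℂ) ^ (-m) * (Real.exp (-σ * m) : ℂ) * TT (lam / 4) φ 0 (-m) σ)

/-- G4: the conclusion -/
def G4 : Prop := ∀ (φ : ℂ → ℂ) (r lam : ℝ), 1 < r → DifferentiableOn ℂ φ (ball 0 r) →
  InjOn φ (ball 0 r) → 0 < lam → Solvable (φ '' ball 0 1) lam →
  J1 φ = 0 ∧ J2 φ = 0 ∧ J3 φ = 0 ∧ (J4 φ).re = 0

/-- the normal component `V · n`, times `|x'|`, of the Killing field `V(x) = β + i ω x` (`n` the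
outer normal `-i x' / |x'|`) -/
noncomputable def vn (φ : ℂ → ℂ) (β : ℂ) (ω : ℝ) (t : ℝ) : ℝ :=
  (conj (β + I * (ω : ℂ) * xx φ t) * xd φ t).im

/-- G5: `∮ (V · n)³ ds = 0`. `(V · n)³ = Re ((i conj τ V)³) / 4 + 3 |V|² (V · n) / 4` and
`∮ |V|² (V · n) ds = 0` (exact). (The cube `(conj V x')³.im`: use
`w.im ^ 3 = (3 |w|² w.im - (w³).im) / 4` for `w = conj V * x'` and `conj` of `J1, ..., J4`.) -/
def G5 : Prop := ∀ (φ : ℂ → ℂ) (r : ℝ), 1 < r → DifferentiableOn ℂ φ (ball 0 r) →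
  InjOn φ (ball 0 r) → J1 φ = 0 → J2 φ = 0 → J3 φ = 0 → (J4 φ).re = 0 →
  ∀ (β : ℂ) (ω : ℝ), ∫ t in (0 : ℝ)..(2 * Real.pi), vn φ β ω t ^ 3 / ‖xd φ t‖ ^ 2 = 0

/-- G6: polarisation -/
def G6 : Prop := ∀ (φ : ℂ → ℂ) (r : ℝ), 1 < r → DifferentiableOn ℂ φ (ball 0 r) →
  InjOn φ (ball 0 r) →
  (∀ (β : ℂ) (ω : ℝ), ∫ t in (0 : ℝ)..(2 * Real.pi), vn φ β ω t ^ 3 / ‖xd φ t‖ ^ 2 = 0) →
  ∀ (β1 β2 β3 : ℂ) (ω1 ω2 ω3 : ℝ), ∫ t in (0 : ℝ)..(2 * Real.pi),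
    vn φ β1 ω1 t * vn φ β2 ω2 t * vn φ β3 ω3 t / ‖xd φ t‖ ^ 2 = 0

end Pool.Agent.E8helper4.FV
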