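import Pool.Agent.E8helper4.FV.Stm3

/-!
# FV, fourth round: the sign criterion

G7: if (V1 · n) (V2 · n) (V3 · n) has constant sign on the boundary for three nonzero Killing fields,
then the Schiffer domain is a disc. By the cubic identity the product vanishes identically; the
three factors are real analytic, so one of them vanishes identically. If `V(x) = β + i ω x` with
`ω ≠ 0`, then `|x - b|` is constant, `b = i β / ω`, and `Ω` is a disc (as D5, C5). If `ω = 0`, then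
`Im (conj β x')` vanishes and the curve lies on a line, which is impossible.
-/

set_option autoImplicit false

open Complex MeasureTheory Metric Set Filter Topology ComplexConjugate

namespace Pool.Agent.E8helper4.FV

/-- G7: the sign criterion -/
def G7 : Prop := ∀ (φ : ℂ → ℂ) (r : ℝ), 1 < r → DifferentiableOn ℂ φ (ball 0 r) →
  InjOn φ (ball 0 r) →
  (∀ (β1 β2 β3 : ℂ) (ω1 ω2 ω3 : ℝ), ∫ t in (0 : ℝ)..(2 * Real.pi),
    vn φ β1 ω1 t * vn φ β2 ω2 t * vn φ β3 ω3 t / ‖xd φ t‖ ^ 2 = 0) →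
  ∀ (β1 β2 β3 : ℂ) (ω1 ω2 ω3 : ℝ), (β1 ≠ 0 ∨ ω1 ≠ 0) → (β2 ≠ 0 ∨ ω2 ≠ 0) →
    (β3 ≠ 0 ∨ ω3 ≠ 0) → (∀ t : ℝ, 0 ≤ vn φ β1 ω1 t * vn φ β2 ω2 t * vn φ β3 ω3 t) →
    ∃ (p : ℂ) (R : ℝ), 0 < R ∧ φ '' ball 0 1 = ball p R

end Pool.Agent.E8helper4.FV
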